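import Pool.Agent.H55.MX.Cyc2

/-!
# Project MX: several places
-/

set_option autoImplicit false

open MvPolynomial Filter Topology
open scoped LinearAlgebra.Projectivization

namespace Pool.Agent.H55.MX

open Pool.Agent.H55.MZ (Poly NoZero Homog Pt Par eval_smul_hom eval_bind eval_smul_sum Near localIdeal pointIdeal)
open Pool.Agent.H55.MG

section A

variable {K : Type} [Field K] [NumberField K] {n N : ℕ} {I E : Ideal (Poly K n)}

/-- The `K`-point `w` is nearer than `ε` to the points `x t` over the fields `L t`, for all `t`. -/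
def NearAll {T : ℕ} {L : Fin (T + 1) → Type} [∀ t, NormedField (L t)] (σ : ∀ t, K →+* L t)
    (x : ∀ t, Fin (n + 1) → L t) (ε : ℝ) (w : Fin (n + 1) → K) : Prop :=
  ∀ t, Nr (σ t) w (x t) ε

/-- products of small discs are stable under subgroups of finite index, at almost all places -/
theorem multi_discs (hI : Homog I) {S : Set (Equiv.Perm (RatPt I))} (hSfin : S.Finite)
    (hS : ∀ g ∈ S, IsAut I g) :
    ∃ N : ℕ, N ≠ 0 ∧ ∀ (T : ℕ) (L : Fin (T + 1) → Type) [∀ t, NontriviallyNormedField (L t)]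
      [∀ t, IsUltrametricDist (L t)] [∀ t, ProperSpace (L t)] (σ : ∀ t, K →+* L t),
      (∀ t, ‖(N : L t)‖ = 1) → ∀ x : ∀ t, Fin (n + 1) → L t, (∀ t, x t ≠ 0) → ∀ ε : ℝ, 0 < ε →
        ∃ (δ : Fin (T + 1) → ℝ) (Γ : Subgroup (Equiv.Perm (RatPt I))), (∀ t, 0 < δ t ∧ δ t ≤ ε) ∧
          Γ ≤ Subgroup.closure S ∧ Γ.relIndex (Subgroup.closure S) ≠ 0 ∧
          ∀ γ ∈ Γ, ∀ p : RatPt I, (∀ t, Nr (σ t) (vec p) (x t) (δ t)) → ∀ t, Nr (σ t) (vec (γ p)) (x t) (δ t) := by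
  obtain ⟨N, hN, h⟩ := good_discs hI hSfin hS
  refine ⟨N, hN, fun T L _ _ _ σ hL x hx ε hε => ?_⟩
  have h1 := fun t => h (L t) (σ t) (hL t) (x t) (hx t) ε hε
  choose δ Γ hδ hδε hΓ hidx hst using h1
  refine ⟨δ, (⨅ t, Γ t) ⊓ Subgroup.closure S, fun t => ⟨hδ t, hδε t⟩, inf_le_right,
    Subgroup.relIndex_inf_ne_zero (Subgroup.relIndex_iInf_ne_zero hidx) (by
      rw [Subgroup.relIndex_self]; exact one_ne_zero), ?_⟩
  intro γ hγ p hp t
  exact hst t γ ((Subgroup.mem_iInf.1 hγ.1) t) p (hp t)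

variable {π : RatPt I → ℙ K (Fin (N + 1) → K)} {r s : ℕ} {P : Fin r → Equiv.Perm (RatPt I)}
  {Q : Fin s → Equiv.Perm (RatPt I)}

/-- the trichotomy for several places -/
theorem Setting.adelic (h : Setting I E π P Q) (hs : IsSurface I) :
    ∃ N : ℕ, N ≠ 0 ∧ ∀ (T : ℕ) (L : Fin (T + 1) → Type) [∀ t, NontriviallyNormedField (L t)]
      [∀ t, IsUltrametricDist (L t)] [∀ t, ProperSpace (L t)] (σ : ∀ t, K →+* L t),
      (∀ t, ‖(N : L t)‖ = 1) → ∀ x : ∀ t, Fin (n + 1) → L t, (∀ t, x t ≠ 0) →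
        (∃ ε : ℝ, 0 < ε ∧ ∀ w : RatPt I, NearAll σ x ε (vec w) → On E w) ∨
        (∃ p : RatPt I, ¬ On E p ∧ (MulAction.orbit (grp P Q) p).Finite ∧
          (∀ t, ∃ c : L t, c ≠ 0 ∧ x t = fun i => c * σ t (vec p i)) ∧
          ∃ ε : ℝ, 0 < ε ∧ ∀ w : RatPt I, NearAll σ x ε (vec w) → w = p) ∨
        ∀ ε : ℝ, 0 < ε → ZDense I {w | NearAll σ x ε (vec w)} := by
  classical
  have hI := h.hI
  obtain ⟨N, hN, hdisc⟩ := multi_discs hI (S := Set.range P ∪ Set.range Q)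
    ((Set.finite_range P).union (Set.finite_range Q)) (by
      rintro g (⟨i, rfl⟩ | ⟨j, rfl⟩)
      · exact h.hP i
      · exact h.hQ j)
  refine ⟨N, hN, fun T L _ _ _ σ hL x hx => ?_⟩
  have hmono : ∀ {ε δ : ℝ} {w : Fin (n + 1) → K}, NearAll σ x δ w → δ ≤ ε → NearAll σ x ε w :=
    fun hw hle t => nr_mono (hw t) hle
  by_cases hA : ∀ ε : ℝ, 0 < ε → {w : RatPt I | NearAll σ x ε (vec w) ∧ ¬ On E w}.Infinite
  · right; right
    intro ε hε d g hg hgI
    by_contra hcon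
    push Not at hcon
    obtain ⟨hp', ℓ, hℓ, hℓ0⟩ := hs
    obtain ⟨m, hm1, hm0⟩ := MZ.NORM.t K n I hp' hI ℓ hℓ hℓ0 g d hg hgI
    obtain ⟨δ, Γ, hδ, hΓ, hidx, hst⟩ := hdisc T L σ hL x hx ε hε
    obtain ⟨δ0, hδ0, hle⟩ := ACT.exists_low δ (fun t => (hδ t).1)
    refine h.curve Γ hΓ hidx {w | (∀ t, Nr (σ t) (vec w) (x t) (δ t)) ∧ ¬ On E w} (fun p hp => hp.2) ?_ ?_
      (I ⊔ Ideal.span {g}) (MZ.homog_sup I hI hg) m hm1 hm0 ?_
    · refine (hA δ0 hδ0).mono ?_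
      rintro w ⟨hw, hw'⟩
      exact ⟨fun t => nr_mono (hw t) (hle t), hw'⟩
    · rintro γ hγ w ⟨hw, hw'⟩
      exact ⟨hst γ hγ w hw, h.stabU γ (hΓ hγ) w hw'⟩
    · rintro w ⟨hw, hw'⟩ f hf
      have hle : I ⊔ Ideal.span {g} ≤ RingHom.ker (eval (vec w)) := by
        refine sup_le (fun h hh => (vec_pt w).2 h hh) ?_
        rw [Ideal.span_le]
        rintro _ rfl
        exact hcon w (fun t => nr_mono (hw t) (hδ t).2)
      exact hle hf
  · push Not at hA
    obtain ⟨ε0, hε0, hfin⟩ := hA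
    have hex : ∀ w : RatPt I, ∃ ε : ℝ, 0 < ε ∧
        ((∀ t, ∃ c : L t, c ≠ 0 ∧ x t = fun i => c * σ t (vec w i)) ∨ ¬ NearAll σ x ε (vec w)) := by
      intro w
      by_cases h : ∀ t, ∃ c : L t, c ≠ 0 ∧ x t = fun i => c * σ t (vec w i)
      · exact ⟨1, one_pos, Or.inl h⟩
      · rw [not_forall] at h
        obtain ⟨t, ht⟩ := h
        obtain ⟨ε, hε, h'⟩ := MZ.not_near (vec_ne w) ht (hx t)
        exact ⟨ε, hε, Or.inr fun h => h' (h t)⟩
    choose e he he' using hex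
    have := hfin.to_subtype
    obtain ⟨ε1, hε1, hle⟩ := ACT.exists_low
      (fun w : {w : RatPt I | NearAll σ x ε0 (vec w) ∧ ¬ On E w} => e w) (fun w => he w)
    have hnear : ∀ w : RatPt I, NearAll σ x (min ε0 ε1) (vec w) → ¬ On E w →
        ∀ t, ∃ c : L t, c ≠ 0 ∧ x t = fun i => c * σ t (vec w i) := by
      intro w hw hwE
      have hw0 : w ∈ {w : RatPt I | NearAll σ x ε0 (vec w) ∧ ¬ On E w} := ⟨hmono hw (min_le_left _ _), hwE⟩
      rcases he' w with h' | h'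
      · exact h'
      · exact absurd (hmono hw ((min_le_right _ _).trans (hle ⟨w, hw0⟩))) h'
    have huniq : ∀ w p : RatPt I, NearAll σ x (min ε0 ε1) (vec w) → ¬ On E w →
        NearAll σ x (min ε0 ε1) (vec p) → ¬ On E p → w = p := by
      intro w p hw hwE hp hpE
      obtain ⟨c', hc', hxw⟩ := hnear w hw hwE 0
      obtain ⟨c, hc, hxp⟩ := hnear p hp hpE 0
      apply eq_of_par
      have h1 : ∀ i, c' * σ 0 (vec w i) = c * σ 0 (vec p i) := fun i => by
        have := congrFun (hxw.symm.trans hxp) i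
        simpa using this
      refine MZ.par_of_minors (vec_ne w) (vec_ne p) fun l m => ?_
      apply (σ 0).injective
      rw [map_mul, map_mul]
      apply mul_left_cancel₀ hc'
      have e1 := h1 l
      have e2 := h1 m
      linear_combination σ 0 (vec p l) * e2 - σ 0 (vec p m) * e1
    have hmin : 0 < min ε0 ε1 := lt_min hε0 hε1
    by_cases hB : ∃ p : RatPt I, NearAll σ x (min ε0 ε1) (vec p) ∧ ¬ On E p
    · obtain ⟨p, hp, hpE⟩ := hB
      right; left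
      have hxp := hnear p hp hpE
      obtain ⟨c0, hc0, hxp0⟩ := hxp 0
      obtain ⟨η, hη, haway⟩ := away h.hE (σ 0) hpE hxp0 hc0
      refine ⟨p, hpE, ?_, hxp, min (min ε0 ε1) η, lt_min hmin hη, fun w hw => ?_⟩
      · obtain ⟨δ, Γ, hδ, hΓ, hidx, hst⟩ := hdisc T L σ hL x hx _ hmin
        refine orb_fin hΓ hidx ((Set.finite_singleton p).subset ?_)
        rintro _ ⟨γ, hγ, rfl⟩
        have h1 : ∀ t, Nr (σ t) (vec (γ p)) (x t) (δ t) := by
          refine hst γ hγ p fun t => ?_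
          obtain ⟨c, hc, hxp⟩ := hxp t
          refine ⟨c, hc, fun i => ?_⟩
          rw [hxp]; simpa using (hδ t).1
        exact huniq _ _ (fun t => nr_mono (h1 t) (hδ t).2) (h.stabU γ (hΓ hγ) p hpE) hp hpE
      · exact huniq _ _ (hmono hw (min_le_left _ _)) (haway w (nr_mono (hw 0) (min_le_right _ _))) hp hpE
    · left
      push Not at hB
      exact ⟨min ε0 ε1, hmin, hB⟩

end A

end Pool.Agent.H55.MX
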