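import Pool.Agent.H55.MG.Crv3

/-!
# Project MX (helper55): Mazur's question for varieties with many automorphisms, with exceptional sets

As project MG, but the relation between the pull-backs is for a line bundle `π^* O(1)` where the map `π : X → ℙᴺ` is an
isomorphism onto its image outside of a closed set `E` which is stable under the automorphisms.
-/

set_option autoImplicit false

open MvPolynomial Filter Topology Height
open scoped LinearAlgebra.Projectivization

namespace Pool.Agent.H55.MX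

open Pool.Agent.H55.MZ (Poly NoZero Homog Pt Par eval_smul_hom eval_smul_sum)
open Pool.Agent.H55.MG

section Defs

variable {K : Type} [Field K] {n N : ℕ}

/-- The map `ψ : X(K) → ℙᴺ(K)` is given by a morphism on `X`: there are finitely many vectors `A α` of forms, the
entries of `A α` of one degree `e α`, all these forms without common zero on `X`, such that for all `p ∈ X(K)` the vector
`A α (p)` is zero or represents `ψ p`. -/
def RegularTo (I : Ideal (Poly K n)) (ψ : RatPt I → ℙ K (Fin (N + 1) → K)) : Prop :=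
  ∃ (k : ℕ) (e : Fin k → ℕ) (A : Fin k → Fin (N + 1) → Poly K n), (∀ α i, (A α i).IsHomogeneous (e α)) ∧
    NoZero I (fun a : Fin k × Fin (N + 1) => A a.1 a.2) ∧
    ∀ (p : RatPt I) (α : Fin k), ∃ c : K, ∀ i, eval (vec p) (A α i) = c * (ψ p).rep i

/-- The relation `⨂ i, (P i)^* O(1) ≅ ⨂ j, (Q j)^* O(1)` for maps `P i`, `Q j` from `X` to `ℙᴺ`: for some map `u` from
`X` to a projective space the two tensor products `u ⊗ ⨂ i, P i` and `u ⊗ ⨂ j, Q j` are given by forms of the same
degree `D` without common zero on `X`. -/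
def LinEquivTo (I : Ideal (Poly K n)) {r s : ℕ} (P : Fin r → RatPt I → ℙ K (Fin (N + 1) → K))
    (Q : Fin s → RatPt I → ℙ K (Fin (N + 1) → K)) : Prop :=
  ∃ (m D : ℕ) (A : Fin (m + 1) → (Fin r → Fin (N + 1)) → Poly K n)
    (B : Fin (m + 1) → (Fin s → Fin (N + 1)) → Poly K n),
    (∀ a μ, (A a μ).IsHomogeneous D) ∧ NoZero I (fun a : Fin (m + 1) × (Fin r → Fin (N + 1)) => A a.1 a.2) ∧
    (∀ a ν, (B a ν).IsHomogeneous D) ∧ NoZero I (fun a : Fin (m + 1) × (Fin s → Fin (N + 1)) => B a.1 a.2) ∧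
    ∀ p : RatPt I, ∃ (u : Fin (m + 1) → K) (c : K), u ≠ 0 ∧ c ≠ 0 ∧
      (∀ a μ, eval (vec p) (A a μ) = u a * ∏ i, (P i p).rep (μ i)) ∧
      (∀ a ν, eval (vec p) (B a ν) = c * (u a * ∏ j, (Q j p).rep (ν j)))

/-- The point `p` of `X(K)` lies on the variety of `E`. -/
def On {I : Ideal (Poly K n)} (E : Ideal (Poly K n)) (p : RatPt I) : Prop := ∀ g ∈ E, eval (vec p) g = 0

/-- Outside of `E` the map `π : X(K) → ℙᴺ(K)` has an inverse which is given by forms: there are finitely many vectors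
`G j` of forms of degrees `e j` such that for all `p ∈ X(K)` not on `E` one of the vectors `G j (π p)` represents
`p`. -/
def InvOut (I E : Ideal (Poly K n)) (π : RatPt I → ℙ K (Fin (N + 1) → K)) : Prop :=
  ∃ (k : ℕ) (e : Fin k → ℕ) (G : Fin k → Fin (n + 1) → Poly K N), (∀ j i, (G j i).IsHomogeneous (e j)) ∧
    ∀ p : RatPt I, ¬ On E p → ∃ (j : Fin k) (c : K), c ≠ 0 ∧ ∀ i, eval (π p).rep (G j i) = c * vec p i

/-- The map with the representatives `ψ p` is given by forms, locally at the `K`-points. -/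
def RegV (I : Ideal (Poly K n)) (ψ : RatPt I → Fin (N + 1) → K) : Prop :=
  ∃ (k : ℕ) (e : Fin k → ℕ) (A : Fin k → Fin (N + 1) → Poly K n), (∀ α i, (A α i).IsHomogeneous (e α)) ∧
    (∀ (p : RatPt I) (α : Fin k), ∃ c : K, ∀ i, eval (vec p) (A α i) = c * ψ p i) ∧
    ∀ p : RatPt I, ∃ α i, eval (vec p) (A α i) ≠ 0

end Defs

section Bas

variable {K : Type} [Field K] {n N : ℕ} {I : Ideal (Poly K n)}

lemma eval_bindG (x : Fin (n + 1) → K) (f : Fin (N + 1) → Poly K n) (g : Poly K N) :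
    eval x (bind₁ f g) = eval (fun i => eval x (f i)) g := by
  have := congrArg (fun φ : Poly K N →+* K => φ g) (show (eval x).comp (bind₁ f : Poly K N →ₐ[K] Poly K n).toRingHom
      = eval (fun i => eval x (f i)) from ?_)
  · simpa using this
  · apply MvPolynomial.ringHom_ext
    · intro r; simp
    · intro i; simp

lemma RegularTo.regV {ψ : RatPt I → ℙ K (Fin (N + 1) → K)} (h : RegularTo I ψ) : RegV I (fun p => (ψ p).rep) := by
  obtain ⟨k, e, A, h1, h2, h3⟩ := h
  refine ⟨k, e, A, h1, h3, fun p => ?_⟩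
  obtain ⟨⟨α, i⟩, h⟩ := h2.exists_ne (vec_ne p) p.2
  exact ⟨α, i, h⟩

lemma regV_of_regK {φ : RatPt I → RatPt I} (h : RegK I φ) : RegV I (fun p => vec (φ p)) := h

lemma RegV.comp {ψ : RatPt I → Fin (N + 1) → K} {φ : RatPt I → RatPt I} (hψ : RegV I ψ) (hφ : RegK I φ) :
    RegV I (fun p => ψ (φ p)) := by
  obtain ⟨k, e, A, hA1, hA2, hA3⟩ := hψ
  obtain ⟨k', e', B, hB1, hB2, hB3⟩ := hφ
  have hev : ∀ (p : RatPt I) (α : Fin k) (β : Fin k') (c : K),
      (∀ i, eval (vec p) (B β i) = c * vec (φ p) i) → ∀ i,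
      eval (vec p) (bind₁ (B β) (A α i)) = c ^ e α * eval (vec (φ p)) (A α i) := by
    intro p α β c hc i
    rw [eval_bindG]
    have : (fun i => eval (vec p) (B β i)) = c • vec (φ p) := by
      funext j
      rw [hc j]; rfl
    rw [this, eval_smul_hom (hA1 α i)]
  refine ⟨k * k', fun x => e' (finProdFinEquiv.symm x).2 * e (finProdFinEquiv.symm x).1,
    fun x i => bind₁ (B (finProdFinEquiv.symm x).2) (A (finProdFinEquiv.symm x).1 i), ?_, ?_, ?_⟩
  · intro x i
    exact (hA1 _ i).aeval _ (hB1 _)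
  · intro p x
    obtain ⟨c, hc⟩ := hB2 p (finProdFinEquiv.symm x).2
    obtain ⟨c', hc'⟩ := hA2 (φ p) (finProdFinEquiv.symm x).1
    refine ⟨c ^ e (finProdFinEquiv.symm x).1 * c', fun i => ?_⟩
    rw [hev p _ _ c hc i, hc' i, mul_assoc]
  · intro p
    obtain ⟨β, j, hβ⟩ := hB3 p
    obtain ⟨α, i, hα⟩ := hA3 (φ p)
    obtain ⟨c, hc⟩ := hB2 p β
    have hc0 : c ≠ 0 := by
      rintro rfl
      exact hβ (by rw [hc j, zero_mul])
    refine ⟨finProdFinEquiv (α, β), i, ?_⟩
    simp only [Equiv.symm_apply_apply]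
    rw [hev p α β c hc i]
    exact mul_ne_zero (pow_ne_zero _ hc0) hα

end Bas

end Pool.Agent.H55.MX
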