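import Pool.Agent.H55.MX.IRR
import Pool.Agent.H55.MX.GR
import Pool.Agent.H55.MG.Fin2
import Pool.Agent.H55.MG.ACT
import Pool.Agent.H55.MG.COMP
import Pool.Agent.H55.MG.DIM
import Pool.Agent.H55.MG.FORB
import Pool.Agent.H55.MG.GDM
import Pool.Agent.H55.MG.GRB
import Pool.Agent.H55.MG.GRT
import Pool.Agent.H55.MG.HREL
import Pool.Agent.H55.MG.LIM
import Pool.Agent.H55.MG.REC
import Pool.Agent.H55.MG.REGC
import Pool.Agent.H55.MG.ZCR

/-!
# Project MX: an infinite set of `K`-points outside of `E` which is stable under a subgroup of finite index does not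
lie on a curve
-/

set_option autoImplicit false

open MvPolynomial Filter Topology Height
open scoped LinearAlgebra.Projectivization

namespace Pool.Agent.H55.MX

open Pool.Agent.H55.MZ (Poly NoZero Homog Pt Par eval_smul_hom eval_bind eval_smul_sum)
open Pool.Agent.H55.MG

section

variable {K : Type} [Field K] [NumberField K] {n N : ℕ} {I : Ideal (Poly K n)}

/-- the image of a set on a curve lies on a curve -/
lemma move_curveV {ψ : RatPt I → Fin (N + 1) → K}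
    (hψ : RegV I ψ) {T : Set (RatPt I)} (J : Ideal (Poly K n)) (hJ : Homog J) (m : Fin 2 → Poly K n)
    (hm : ∀ i, (m i).IsHomogeneous 1) (h0 : NoZero J m) (hT : ∀ q ∈ T, ∀ f ∈ J, eval (vec q) f = 0) :
    ∃ (m' : Fin 2 → Poly K N) (c : ℝ), (∀ i, (m' i).IsHomogeneous 1) ∧
      ∀ q ∈ T, |logHeight ![eval (ψ q) (m' 0), eval (ψ q) (m' 1)] - logHeight (ψ q)| ≤ c := by
  obtain ⟨k, e, A, hA1, hA2, hA3⟩ := hψ
  obtain ⟨J', hJ', hG', hz⟩ := GR.t K n N J (GRB.t K n J hJ m hm h0) k e A hA1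
  obtain ⟨m', hm1, hm0⟩ := DIM.t K N J' hJ' hG'
  obtain ⟨C, hC⟩ := MZ.proj MZ.NULL.t hJ' hm1 hm0
  have hzero : ∀ q ∈ T, ∀ f ∈ J', eval (ψ q) f = 0 := by
    intro q hq f hf
    obtain ⟨α, i, hα⟩ := hA3 q
    obtain ⟨b, hb⟩ := hA2 q α
    have hb0 : b ≠ 0 := by
      rintro rfl
      exact hα (by rw [hb i, zero_mul])
    have h2 : (fun i => eval (vec q) (A α i)) = b • ψ q := by
      funext j
      rw [hb j]; rfl
    rw [← one_smul K (ψ q), eval_smul_sum]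
    refine Finset.sum_eq_zero fun t _ => ?_
    have h1 := hT q hq _ (hz f hf t α)
    rw [eval_bindG, h2, eval_smul_hom (homogeneousComponent_isHomogeneous t f)] at h1
    rw [(mul_eq_zero.1 h1).resolve_left (pow_ne_zero _ hb0), mul_zero]
  exact ⟨m', C, hm1, fun q hq => hC _ (hzero q hq)⟩

/-- the limit of the ratio of heights on an irreducible set of points of a curve -/
lemma lim_ratio (J : Ideal (Poly K n)) (hJ : Homog J) (m : Fin 2 → Poly K n)
    (hm : ∀ i, (m i).IsHomogeneous 1) (h0 : NoZero J m) :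
    ∃ D : ℕ, ∀ (C : Set (RatPt I)) [Infinite C] (_ : ZIrred I C) (_ : ∀ q ∈ C, ∀ f ∈ J, eval (vec q) f = 0)
      (N : ℕ) (ψ : RatPt I → Fin (N + 1) → K) (_ : RegV I ψ)
      (_ : Tendsto (fun p : C => logHeight (vec (p : RatPt I))) cofinite atTop)
      (_ : Tendsto (fun p : C => logHeight (ψ p)) cofinite atTop),
      ∃ ρ : ℝ, Tendsto (fun p : C => logHeight (ψ p) / logHeight (vec (p : RatPt I))) cofinite (𝓝 ρ) ∧
        1 ≤ ρ * D := by
  obtain ⟨c0, hb0⟩ := MZ.proj MZ.NULL.t hJ hm h0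
  obtain ⟨D, hD⟩ := IRR.t K n J hJ m hm h0
  refine ⟨D, ?_⟩
  intro C _ hCirr hzJ N ψ hψ ht1 htψ
  obtain ⟨m', c', hm1', hb'⟩ := move_curveV hψ J hJ m hm h0 hzJ
  have e1 : ∀ᶠ p : C in cofinite, eval (vec (p : RatPt I)) (m 0) ≠ 0 ∧
      |logHeight₁ (eval (vec (p : RatPt I)) (m 1) / eval (vec (p : RatPt I)) (m 0)) -
        logHeight (vec (p : RatPt I))| ≤ c0 := by
    filter_upwards [ht1.eventually_gt_atTop c0] with p hp'
    exact ht_quot _ _ (hb0 _ (hzJ p p.2)) hp'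
  have e2 : ∀ᶠ p : C in cofinite, eval (ψ p) (m' 0) ≠ 0 ∧
      |logHeight₁ (eval (ψ p) (m' 1) / eval (ψ p) (m' 0)) - logHeight (ψ p)| ≤ c' := by
    filter_upwards [htψ.eventually_gt_atTop c'] with p hp'
    exact ht_quot _ _ (hb' p p.2) hp'
  obtain ⟨p0, hp0, hp0'⟩ := (e1.and e2).exists
  obtain ⟨F, hF, hFD, hFz⟩ := hD N I C hCirr hzJ ψ hψ m' hm1' ⟨p0, p0.2, hp0.1, hp0'.1⟩
  obtain ⟨ρ, hρ⟩ := LIM.t K F hF
  have e3 : ∀ᶠ p : C in cofinite, F.evalEval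
      (eval (vec (p : RatPt I)) (m 1) / eval (vec (p : RatPt I)) (m 0))
      (eval (ψ p) (m' 1) / eval (ψ p) (m' 0)) = 0 := by
    filter_upwards [e1, e2] with p h1 h2
    exact hFz p p.2 h1.1 h2.1
  have e1' : ∀ᶠ p : C in cofinite, |logHeight (vec (p : RatPt I)) -
      logHeight₁ (eval (vec (p : RatPt I)) (m 1) / eval (vec (p : RatPt I)) (m 0))| ≤ c0 := by
    filter_upwards [e1] with p h1
    rw [abs_sub_comm]; exact h1.2
  have e2' : ∀ᶠ p : C in cofinite, |logHeight (ψ p) -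
      logHeight₁ (eval (ψ p) (m' 1) / eval (ψ p) (m' 0))| ≤ c' := by
    filter_upwards [e2] with p h1
    rw [abs_sub_comm]; exact h1.2
  have t1 := tendsto_pert e1' ht1
  have t2 := tendsto_pert e2' htψ
  obtain ⟨h1, h2⟩ := hρ C cofinite _ _ e3 t1 t2
  refine ⟨ρ, ratio_pert (e2.mono fun p h => h.2) (e1.mono fun p h => h.2) t1 h2, ?_⟩
  have hρ0 : 0 ≤ ρ := ge_of_tendsto' h2 fun k => div_nonneg (zero_le_logHeight₁ _) (zero_le_logHeight₁ _)
  refine h1.trans ?_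
  gcongr

theorem curveX {r s : ℕ} (hrs : r ≠ s) (P : Fin r → Equiv.Perm (RatPt I)) (Q : Fin s → Equiv.Perm (RatPt I))
    (hP : ∀ i, RegK I (P i) ∧ RegK I (P i).symm) (hQ : ∀ j, RegK I (Q j) ∧ RegK I (Q j).symm)
    (π : RatPt I → Fin (N + 1) → K) (hπ : RegV I π)
    {C1 : ℝ} (hrel : ∀ p, |∑ i, logHeight (π (P i p)) - ∑ j, logHeight (π (Q j p))| ≤ C1)
    (U : Set (RatPt I)) (hU : ∀ γ ∈ Subgroup.closure (Set.range P ∪ Set.range Q), ∀ y ∈ U, γ y ∈ U)
    (hUN : ∀ B : ℝ, {p : RatPt I | p ∈ U ∧ logHeight (π p) ≤ B}.Finite)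
    (Γ : Subgroup (Equiv.Perm (RatPt I))) (hΓ : Γ ≤ Subgroup.closure (Set.range P ∪ Set.range Q))
    (hidx : Γ.relIndex (Subgroup.closure (Set.range P ∪ Set.range Q)) ≠ 0)
    (T : Set (RatPt I)) (hTU : T ⊆ U) (hTinf : T.Infinite) (hT : ∀ γ ∈ Γ, ∀ y ∈ T, γ y ∈ T)
    (J : Ideal (Poly K n)) (hJ : Homog J) (m : Fin 2 → Poly K n)
    (hm : ∀ i, (m i).IsHomogeneous 1) (h0 : NoZero J m) (hTJ : ∀ q ∈ T, ∀ f ∈ J, eval (vec q) f = 0) : False := by
  classical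
  set Γ0 : Subgroup (Equiv.Perm (RatPt I)) := Subgroup.closure (Set.range P ∪ Set.range Q) with hΓ0
  have hreg : ∀ γ ∈ Γ0, RegK I γ ∧ RegK I γ.symm := fun γ hγ => closure_reg REGC.t (by
    rintro g (⟨i, rfl⟩ | ⟨j, rfl⟩)
    · exact hP i
    · exact hQ j) hγ
  obtain ⟨C, Γ', hCT, hCinf, hCirr, hΓ'Γ, hidx', hC⟩ :=
    COMP.t K n I Γ (fun γ hγ => ZCR.t K n I γ (hreg γ (hΓ hγ)).1) T hTinf hT
  obtain ⟨D, hD⟩ := lim_ratio (I := I) J hJ m hm h0
  haveI : Infinite C := hCinf.to_subtype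
  have ht : ∀ γ : Equiv.Perm (RatPt I), Tendsto (fun p : C => logHeight (vec (γ p))) cofinite atTop := by
    intro γ
    rw [tendsto_atTop]
    intro B
    have hfin : {p : C | logHeight (vec (γ p)) ≤ B}.Finite := by
      refine Set.Finite.of_finite_image (f := fun p : C => γ p) ((northcott_pt I B).subset ?_) ?_
      · rintro _ ⟨p, hp, rfl⟩; exact hp
      · intro p _ q _ h; exact Subtype.ext (γ.injective h)
    refine hfin.subset fun p hp => ?_
    simp only [Set.mem_compl_iff, Set.mem_ofPred_eq, not_le] at hp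
    exact hp.le
  have ht1 : Tendsto (fun p : C => logHeight (vec (p : RatPt I))) cofinite atTop := ht 1
  have htπ : ∀ γ ∈ Γ0, Tendsto (fun p : C => logHeight (π (γ p))) cofinite atTop := by
    intro γ hγ
    rw [tendsto_atTop]
    intro B
    have hfin : {p : C | logHeight (π (γ p)) ≤ B}.Finite := by
      refine Set.Finite.of_finite_image (f := fun p : C => γ p) ((hUN B).subset ?_) ?_
      · rintro _ ⟨p, hp, rfl⟩; exact ⟨hU γ hγ _ (hTU (hCT p.2)), hp⟩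
      · intro p _ q _ h; exact Subtype.ext (γ.injective h)
    refine hfin.subset fun p hp => ?_
    simp only [Set.mem_compl_iff, Set.mem_ofPred_eq, not_le] at hp
    exact hp.le
  have hzJ : ∀ q ∈ C, ∀ f ∈ J, eval (vec q) f = 0 := fun q hq => hTJ q (hCT hq)
  have hlim : ∀ γ ∈ Γ0, ∃ ρ : ℝ, Tendsto (fun p : C => logHeight (π (γ p)) / logHeight (vec (p : RatPt I)))
      cofinite (𝓝 ρ) ∧ 1 ≤ ρ * D := fun γ hγ =>
    hD C hCirr hzJ N (fun p => π (γ p)) (hπ.comp (hreg γ hγ).1) ht1 (htπ γ hγ)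
  have hlimτ : ∀ γ ∈ Γ0, ∃ ρ : ℝ, Tendsto (fun p : C => logHeight (vec (γ p)) / logHeight (vec (p : RatPt I)))
      cofinite (𝓝 ρ) ∧ 1 ≤ ρ * D := fun γ hγ =>
    hD C hCirr hzJ n (fun p => vec (γ p)) (regV_of_regK (hreg γ hγ).1) ht1 (ht γ)
  choose! ρ hρ hρD using hlim
  choose! τ hτ hτD using hlimτ
  have hpos : ∀ x : ℝ, 1 ≤ x * D → 0 < x := by
    intro x h1
    have hD0 : (0 : ℝ) ≤ D := by positivity
    by_contra hcon
    push Not at hcon
    nlinarith [mul_nonneg_of_nonpos_of_nonpos hcon (neg_nonpos.2 hD0)]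
  have hρpos : ∀ γ ∈ Γ0, 0 < ρ γ := fun γ hγ => hpos _ (hρD γ hγ)
  have hτpos : ∀ γ ∈ Γ0, 0 < τ γ := fun γ hγ => hpos _ (hτD γ hγ)
  have hΓ'0 : Γ' ≤ Γ0 := hΓ'Γ.trans hΓ
  have hfc : ∀ γ' ∈ Γ', ∃ f : C → C, (∀ p, (f p : RatPt I) = γ' p) ∧ Tendsto f cofinite cofinite := by
    intro γ' hγ'
    refine ⟨fun p => ⟨γ' p, hC γ' hγ' p p.2⟩, fun p => rfl, ?_⟩
    apply Function.Injective.tendsto_cofinite
    intro p q h
    apply Subtype.ext
    exact γ'.injective (congrArg Subtype.val h)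
  -- multiplicativity
  have hmulτ : ∀ γ ∈ Γ0, ∀ γ' ∈ Γ', τ (γ * γ') = τ γ * τ γ' := by
    intro γ hγ γ' hγ'
    obtain ⟨f, hf, hft⟩ := hfc γ' hγ'
    have h1 : Tendsto (fun p : C => logHeight (vec (γ (γ' p))) / logHeight (vec (γ' p)) *
        (logHeight (vec (γ' p)) / logHeight (vec (p : RatPt I)))) cofinite (𝓝 (τ γ * τ γ')) := by
      refine Tendsto.mul ?_ (hτ γ' (hΓ'0 hγ'))
      refine ((hτ γ hγ).comp hft).congr fun p => ?_
      simp only [Function.comp, hf]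
    have h2 := hτ (γ * γ') (mul_mem hγ (hΓ'0 hγ'))
    refine tendsto_nhds_unique h2 (h1.congr' ?_)
    filter_upwards [(ht γ').eventually_gt_atTop 0] with p hp'
    rw [Equiv.Perm.mul_apply]
    field_simp
  have hone : τ 1 = 1 := by
    have h1 := hτ 1 (one_mem _)
    refine tendsto_nhds_unique h1 (tendsto_const_nhds.congr' ?_)
    filter_upwards [ht1.eventually_gt_atTop 0] with p hp'
    rw [Equiv.Perm.coe_one, id, div_self hp'.ne']
  have hge : ∀ γ ∈ Γ', 1 ≤ τ γ := by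
    intro γ hγ
    by_contra hlt
    push Not at hlt
    have h1 : ∀ k : ℕ, τ (γ ^ k) = τ γ ^ k := by
      intro k
      induction k with
      | zero => simpa using hone
      | succ k ih => rw [pow_succ, hmulτ _ (pow_mem (hΓ'0 hγ) k) _ hγ, ih, pow_succ]
    have h2 : ∀ k : ℕ, 1 ≤ τ γ ^ k * D := fun k => by
      rw [← h1 k]; exact hτD _ (pow_mem (hΓ'0 hγ) k)
    have h3 : Tendsto (fun k : ℕ => τ γ ^ k * D) atTop (𝓝 (0 * D)) :=
      (tendsto_pow_atTop_nhds_zero_of_lt_one (hτpos γ (hΓ'0 hγ)).le hlt).mul_const _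
    rw [zero_mul] at h3
    have h4 := ge_of_tendsto' h3 h2
    linarith
  have hτ1 : ∀ γ ∈ Γ', τ γ = 1 := by
    intro γ hγ
    have h1 := hge γ hγ
    have h2 := hge γ⁻¹ (inv_mem hγ)
    have h3 := hmulτ γ (hΓ'0 hγ) γ⁻¹ (inv_mem hγ)
    rw [mul_inv_cancel, hone] at h3
    nlinarith
  have hmul : ∀ γ ∈ Γ0, ∀ γ' ∈ Γ', ρ (γ * γ') = ρ γ := by
    intro γ hγ γ' hγ'
    obtain ⟨f, hf, hft⟩ := hfc γ' hγ'
    have h1 : Tendsto (fun p : C => logHeight (π (γ (γ' p))) / logHeight (vec (γ' p)) *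
        (logHeight (vec (γ' p)) / logHeight (vec (p : RatPt I)))) cofinite (𝓝 (ρ γ * τ γ')) := by
      refine Tendsto.mul ?_ (hτ γ' (hΓ'0 hγ'))
      refine ((hρ γ hγ).comp hft).congr fun p => ?_
      simp only [Function.comp, hf]
    rw [hτ1 γ' hγ', mul_one] at h1
    have h2 := hρ (γ * γ') (mul_mem hγ (hΓ'0 hγ'))
    refine tendsto_nhds_unique h2 (h1.congr' ?_)
    filter_upwards [(ht γ').eventually_gt_atTop 0] with p hp'
    rw [Equiv.Perm.mul_apply]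
    field_simp
  -- the relation
  have hrl : ∀ γ ∈ Γ0, ∑ i, ρ (P i * γ) = ∑ j, ρ (Q j * γ) := by
    intro γ hγ
    have hPm : ∀ i, P i ∈ Γ0 := fun i => Subgroup.subset_closure (Or.inl ⟨i, rfl⟩)
    have hQm : ∀ j, Q j ∈ Γ0 := fun j => Subgroup.subset_closure (Or.inr ⟨j, rfl⟩)
    have h1 : Tendsto (fun p : C => ∑ i, logHeight (π ((P i * γ) p)) / logHeight (vec (p : RatPt I)) -
        ∑ j, logHeight (π ((Q j * γ) p)) / logHeight (vec (p : RatPt I))) cofinite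
        (𝓝 (∑ i, ρ (P i * γ) - ∑ j, ρ (Q j * γ))) :=
      (tendsto_finsetSum _ fun i _ => hρ _ (mul_mem (hPm i) hγ)).sub
        (tendsto_finsetSum _ fun j _ => hρ _ (mul_mem (hQm j) hγ))
    have h2 : Tendsto (fun p : C => ∑ i, logHeight (π ((P i * γ) p)) / logHeight (vec (p : RatPt I)) -
        ∑ j, logHeight (π ((Q j * γ) p)) / logHeight (vec (p : RatPt I))) cofinite (𝓝 0) := by
      rw [tendsto_zero_iff_abs_tendsto_zero]
      refine squeeze_zero' (Eventually.of_forall fun k => abs_nonneg _) ?_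
        (Tendsto.div_atTop (tendsto_const_nhds (x := C1)) ht1)
      filter_upwards [ht1.eventually_gt_atTop 0] with p hpos
      simp only [Function.comp]
      rw [← Finset.sum_div, ← Finset.sum_div, ← sub_div, abs_div, abs_of_pos hpos]
      gcongr
      exact hrel (γ p)
    have h3 := tendsto_nhds_unique h1 h2
    linarith
  -- finite index
  have hidx2 : Γ'.relIndex Γ0 ≠ 0 := Subgroup.relIndex_ne_zero_trans hidx' hidx
  set H : Subgroup Γ0 := Γ'.subgroupOf Γ0 with hH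
  have hHi : H.index ≠ 0 := hidx2
  haveI : H.FiniteIndex := ⟨hHi⟩
  haveI : Fintype (Γ0 ⧸ H) := Fintype.ofFinite _
  set f : Γ0 → ℝ := fun γ => ρ γ with hf
  have hfH : ∀ g h, h ∈ H → f (g * h) = f g := by
    intro g h hh
    have h1 : (h : Equiv.Perm (RatPt I)) ∈ Γ' := Subgroup.mem_subgroupOf.1 hh
    simp only [hf, Subgroup.coe_mul]
    exact hmul _ g.2 _ h1
  set R : ℝ := ∑ c : Γ0 ⧸ H, f c.out with hR
  have hRpos : 0 < R := Finset.sum_pos (fun c _ => hρpos _ c.out.2) ⟨((1 : Γ0) : Γ0 ⧸ H), Finset.mem_univ _⟩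
  have h1 : ∑ c : Γ0 ⧸ H, ∑ i, ρ (P i * (c.out : Γ0)) = r * R := by
    rw [Finset.sum_comm]
    have : ∀ i, ∑ c : Γ0 ⧸ H, ρ (P i * (c.out : Γ0)) = R := fun i =>
      sum_coset H f hfH ⟨P i, Subgroup.subset_closure (Or.inl ⟨i, rfl⟩)⟩
    rw [Finset.sum_congr rfl fun i _ => this i]
    simp
  have h2 : ∑ c : Γ0 ⧸ H, ∑ j, ρ (Q j * (c.out : Γ0)) = s * R := by
    rw [Finset.sum_comm]
    have : ∀ j, ∑ c : Γ0 ⧸ H, ρ (Q j * (c.out : Γ0)) = R := fun j =>
      sum_coset H f hfH ⟨Q j, Subgroup.subset_closure (Or.inr ⟨j, rfl⟩)⟩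
    rw [Finset.sum_congr rfl fun j _ => this j]
    simp
  have h3 : (r : ℝ) * R = s * R := by
    rw [← h1, ← h2]
    exact Finset.sum_congr rfl fun c _ => hrl _ c.out.2
  exact hrs (by exact_mod_cast mul_right_cancel₀ hRpos.ne' h3)

end

end Pool.Agent.H55.MX
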