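import Pool.Agent.H55.MX.Per

/-!
# Project MX: zero-cycles and involutions
-/

set_option autoImplicit false

open MvPolynomial

namespace Pool.Agent.H55.MX

open Pool.Agent.H55.MZ (Poly NoZero Homog Pt Par eval_smul_hom eval_bind eval_smul_sum Near localIdeal pointIdeal)
open Pool.Agent.H55.MG

section Cyc

/-- The linear form with the coefficients `x`. -/
noncomputable def lin {F : Type} [Field F] {n : ℕ} (x : Fin (n + 1) → F) : MvPolynomial (Fin (n + 1)) F :=
  ∑ i, C (x i) * X i

/-- `H` is the product of the linear forms with the coefficients `x j`, up to a constant factor (the Chow form of the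
zero-cycle `∑ j, [x j]`). -/
def IsChow {F : Type} [Field F] {n d : ℕ} (H : MvPolynomial (Fin (n + 1)) F) (x : Fin d → Fin (n + 1) → F) : Prop :=
  ∃ c : F, c ≠ 0 ∧ H = C c * ∏ j, lin (x j)

variable {K : Type} [Field K] {n : ℕ}

/-- The vector `x` gives a point of the variety of `I` over the algebraic closure. -/
def GPt (I : Ideal (Poly K n)) (x : Fin (n + 1) → AlgebraicClosure K) : Prop := x ≠ 0 ∧ ∀ g ∈ I, aeval x g = 0

/-- The zero-cycles `∑ [x j]` and `∑ [y j]` of degree `d` are the members at `0` and `1` of a family of effective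
zero-cycles on the variety of `I` over the affine line (without finitely many points): the Chow forms of the members of
the family are the values of a polynomial `G` in one variable. -/
def DirEq (I : Ideal (Poly K n)) {d : ℕ} (x y : Fin d → Fin (n + 1) → AlgebraicClosure K) : Prop :=
  ∃ G : MvPolynomial (Fin (n + 1)) (Polynomial (AlgebraicClosure K)),
    (∀ τ : AlgebraicClosure K, map (Polynomial.evalRingHom τ) G = 0 ∨
      ∃ z : Fin d → Fin (n + 1) → AlgebraicClosure K, (∀ j, GPt I (z j)) ∧
        IsChow (map (Polynomial.evalRingHom τ) G) z) ∧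
    IsChow (map (Polynomial.evalRingHom 0) G) x ∧ IsChow (map (Polynomial.evalRingHom 1) G) y

/-- The zero-cycles (formal sums of vectors) which are rationally equivalent to zero on the variety of `I` over the
algebraic closure: the group generated by the differences of proportional vectors and of the members of families over
the affine line. -/
noncomputable def RatC (I : Ideal (Poly K n)) : AddSubgroup ((Fin (n + 1) → AlgebraicClosure K) →₀ ℤ) :=
  AddSubgroup.closure
    ({c | ∃ x y, GPt I x ∧ Par x y ∧ c = Finsupp.single x 1 - Finsupp.single y 1} ∪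
      {c | ∃ (d : ℕ) (x y : Fin d → Fin (n + 1) → AlgebraicClosure K), (∀ j, GPt I (x j)) ∧ (∀ j, GPt I (y j)) ∧
        DirEq I x y ∧ c = ∑ j, (Finsupp.single (x j) 1 - Finsupp.single (y j) 1)})

/-- The coordinates of a `K`-point in the algebraic closure. -/
noncomputable def emb {I : Ideal (Poly K n)} (p : RatPt I) : Fin (n + 1) → AlgebraicClosure K :=
  fun i => algebraMap K (AlgebraicClosure K) (vec p i)

/-- The `K`-points `p` and `q` of `X` are rationally equivalent on `X` over the algebraic closure. -/
def REq {I : Ideal (Poly K n)} (p q : RatPt I) : Prop :=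
  (Finsupp.single (emb p) 1 - Finsupp.single (emb q) 1 : (Fin (n + 1) → AlgebraicClosure K) →₀ ℤ) ∈ RatC I

/-- The value at `t` of a polynomial `G` in `m` variables with forms as coefficients. -/
noncomputable def valAt {m : ℕ} (G : MvPolynomial (Fin (n + 1)) (MvPolynomial (Fin m) K))
    (t : Fin m → AlgebraicClosure K) : MvPolynomial (Fin (n + 1)) (AlgebraicClosure K) :=
  map (eval₂Hom (algebraMap K (AlgebraicClosure K)) t) G

/-- The pairs `p`, `σ p` are members of a family of effective zero-cycles of degree two on `X` whose Chow forms are the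
values of a polynomial `G` in `m` variables with coefficients in `K`.  For example `σ` is the covering involution of
a double covering of the projective plane or of a quadric by `X`. -/
def Deck (I : Ideal (Poly K n)) (σ : RatPt I → RatPt I) : Prop :=
  ∃ (m : ℕ) (G : MvPolynomial (Fin (n + 1)) (MvPolynomial (Fin m) K)),
    (∀ t : Fin m → AlgebraicClosure K, valAt G t = 0 ∨
      ∃ z : Fin 2 → Fin (n + 1) → AlgebraicClosure K, (∀ j, GPt I (z j)) ∧ IsChow (valAt G t) z) ∧
    ∀ p : RatPt I, ∃ t : Fin m → AlgebraicClosure K, IsChow (valAt G t) ![emb p, emb (σ p)]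

variable {I : Ideal (Poly K n)}

lemma gpt_emb (p : RatPt I) : GPt I (emb p) := by
  refine ⟨fun h => vec_ne p ?_, fun g hg => ?_⟩
  · funext i
    have := congrFun h i
    simpa [emb] using this
  · have h1 : aeval (emb p) g = algebraMap K (AlgebraicClosure K) (eval (vec p) g) := by
      rw [aeval_def]
      exact (eval₂_comp (algebraMap K (AlgebraicClosure K)) (vec p) g).symm
    rw [h1, (vec_pt p).2 g hg, map_zero]

/-- the class -/
noncomputable def cls (p : RatPt I) : ((Fin (n + 1) → AlgebraicClosure K) →₀ ℤ) ⧸ RatC I :=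
  QuotientAddGroup.mk (Finsupp.single (emb p) 1)

lemma req_iff (p q : RatPt I) : REq p q ↔ cls p = cls q := by
  unfold REq cls
  rw [QuotientAddGroup.eq, ← neg_mem_iff]
  constructor <;> intro h <;> · convert h using 1; abel

lemma deck_const {σ : RatPt I → RatPt I} (hσ : Deck I σ) (p q : RatPt I) :
    cls p + cls (σ p) = cls q + cls (σ q) := by
  obtain ⟨m, G, hG1, hG2⟩ := hσ
  obtain ⟨t0, ht0⟩ := hG2 p
  obtain ⟨t1, ht1⟩ := hG2 q
  set φ : MvPolynomial (Fin m) K →+* Polynomial (AlgebraicClosure K) :=
    eval₂Hom (Polynomial.C.comp (algebraMap K (AlgebraicClosure K)))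
      (fun i => Polynomial.C (t0 i) + Polynomial.X * Polynomial.C (t1 i - t0 i)) with hφ
  have hev : ∀ τ : AlgebraicClosure K, map (Polynomial.evalRingHom τ) (map φ G) =
      valAt G (fun i => t0 i + τ * (t1 i - t0 i)) := by
    intro τ
    unfold valAt
    rw [MvPolynomial.map_map]
    congr 1
    apply MvPolynomial.ringHom_ext
    · intro r
      have h1 : (Polynomial.evalRingHom τ).comp (Polynomial.C.comp (algebraMap K (AlgebraicClosure K))) =
          algebraMap K (AlgebraicClosure K) := by
        ext a; simp
      simp [hφ, h1]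
    · intro i
      simp [hφ]
  have hD : DirEq I ![emb p, emb (σ p)] ![emb q, emb (σ q)] := by
    refine ⟨map φ G, fun τ => ?_, ?_, ?_⟩
    · rw [hev]; exact hG1 _
    · rw [hev]
      simpa using ht0
    · rw [hev]
      simpa using ht1
  have hmem : (∑ j : Fin 2, (Finsupp.single ((![emb p, emb (σ p)] : Fin 2 → Fin (n + 1) → AlgebraicClosure K) j) 1 -
      Finsupp.single ((![emb q, emb (σ q)] : Fin 2 → Fin (n + 1) → AlgebraicClosure K) j) 1) :
      (Fin (n + 1) → AlgebraicClosure K) →₀ ℤ) ∈ RatC I := by
    apply AddSubgroup.subset_closure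
    right
    refine ⟨2, _, _, ?_, ?_, hD, rfl⟩
    · intro j; fin_cases j
      · exact gpt_emb p
      · exact gpt_emb (σ p)
    · intro j; fin_cases j
      · exact gpt_emb q
      · exact gpt_emb (σ q)
  rw [Fin.sum_univ_two] at hmem
  simp only [Matrix.cons_val_zero, Matrix.cons_val_one] at hmem
  unfold cls
  rw [← QuotientAddGroup.mk_add, ← QuotientAddGroup.mk_add, QuotientAddGroup.eq, ← neg_mem_iff]
  convert hmem using 1
  abel

lemma list_const (l : List (Equiv.Perm (RatPt I))) (hl : ∀ σ ∈ l, Deck I σ) (p q : RatPt I) :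
    cls (l.prod p) - cls (l.prod q) = (-1 : ℤ) ^ l.length • (cls p - cls q) := by
  induction l with
  | nil => simp
  | cons a l ih =>
    have h1 := ih fun σ hσ => hl σ (List.mem_cons_of_mem _ hσ)
    have h2 := deck_const (hl a List.mem_cons_self) (l.prod p) (l.prod q)
    rw [List.prod_cons, List.length_cons, pow_succ, mul_comm, mul_smul, ← h1]
    simp only [Equiv.Perm.mul_apply]
    have h3 : cls (a (l.prod p)) = cls (l.prod q) + cls (a (l.prod q)) - cls (l.prod p) := by
      rw [← h2]; abel
    rw [h3]
    simp only [neg_smul, one_smul]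
    abel

/-- the square of a product of an odd number of involutions acts trivially -/
lemma cls_sq (l : List (Equiv.Perm (RatPt I))) (hl : ∀ σ ∈ l, Deck I σ) (hodd : Odd l.length) (p : RatPt I) :
    cls (l.prod (l.prod p)) = cls p := by
  have h := list_const l hl p (l.prod p)
  rw [hodd.neg_one_pow, neg_smul, one_smul] at h
  have : cls p = cls (l.prod (l.prod p)) := by
    have h' : cls (l.prod p) - cls (l.prod (l.prod p)) + (cls p - cls (l.prod p)) = 0 := by rw [h]; abel
    have h'' : cls p - cls (l.prod (l.prod p)) = 0 := by rw [← h']; abel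
    exact sub_eq_zero.1 h''
  exact this.symm

end Cyc

end Pool.Agent.H55.MX
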