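import Pool.Agent.H55.MX.Cyc

/-!
# Project MX: orbits of products of involutions and rational equivalence
-/

set_option autoImplicit false

open MvPolynomial Filter Topology Height
open scoped LinearAlgebra.Projectivization

namespace Pool.Agent.H55.MX

open Pool.Agent.H55.MZ (Poly NoZero Homog Pt Par eval_smul_hom eval_bind eval_smul_sum Near localIdeal pointIdeal)
open Pool.Agent.H55.MG

section D

variable {K : Type} [Field K] [NumberField K] {n N : ℕ} {I E : Ideal (Poly K n)}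

/-- small discs are stable under subgroups of finite index, at almost all places -/
theorem good_discs (hI : Homog I) {S : Set (Equiv.Perm (RatPt I))} (hSfin : S.Finite)
    (hS : ∀ g ∈ S, IsAut I g) :
    ∃ N : ℕ, N ≠ 0 ∧ ∀ (L : Type) [NontriviallyNormedField L] [IsUltrametricDist L] [ProperSpace L] (σ : K →+* L),
      ‖(N : L)‖ = 1 → ∀ x : Fin (n + 1) → L, x ≠ 0 → ∀ ε : ℝ, 0 < ε →
        ∃ (δ : ℝ) (Γ : Subgroup (Equiv.Perm (RatPt I))), 0 < δ ∧ δ ≤ ε ∧ Γ ≤ Subgroup.closure S ∧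
          Γ.relIndex (Subgroup.closure S) ≠ 0 ∧
          ∀ γ ∈ Γ, ∀ p : RatPt I, Nr σ (vec p) x δ → Nr σ (vec (γ p)) x δ := by
  classical
  have hgood : ∀ g ∈ S, ∃ N : ℕ, N ≠ 0 ∧
      ∀ (L : Type) [NontriviallyNormedField L] [IsUltrametricDist L] (σ : K →+* L),
      ‖(N : L)‖ = 1 → GoodMap I σ g ∧ GoodMap I σ g.symm := by
    intro g hg
    have h1 := hS g hg
    obtain ⟨N1, hN1, h2⟩ := GDM.t K n I hI g h1.1
    obtain ⟨N2, hN2, h3⟩ := GDM.t K n I hI g.symm h1.2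
    refine ⟨N1 * N2, mul_ne_zero hN1 hN2, ?_⟩
    intro L _ _ σ hL
    have hle : ∀ m : ℕ, ‖(m : L)‖ ≤ 1 := fun m => IsUltrametricDist.norm_natCast_le_one L m
    rw [Nat.cast_mul, norm_mul] at hL
    have a1 : ‖(N1 : L)‖ = 1 := by
      refine le_antisymm (hle _) ?_
      by_contra hlt
      push Not at hlt
      have := mul_le_mul (le_refl ‖(N1 : L)‖) (hle N2) (norm_nonneg _) (norm_nonneg _)
      linarith
    have a2 : ‖(N2 : L)‖ = 1 := by
      rw [a1, one_mul] at hL; exact hL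
    exact ⟨h2 L σ a1, h3 L σ a2⟩
  choose! N hN0 hNg using hgood
  refine ⟨∏ g ∈ hSfin.toFinset, N g, ?_, ?_⟩
  · rw [Finset.prod_ne_zero_iff]
    intro g hg
    exact hN0 g ((Set.Finite.mem_toFinset hSfin).1 hg)
  · intro L _ _ _ σ hL x hx ε hε
    have hle : ∀ m : ℕ, ‖(m : L)‖ ≤ 1 := fun m => IsUltrametricDist.norm_natCast_le_one L m
    have hNL : ∀ g ∈ S, ‖(N g : L)‖ = 1 := by
      intro g hg
      have hg' : g ∈ hSfin.toFinset := (Set.Finite.mem_toFinset hSfin).2 hg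
      rw [Nat.cast_prod, norm_prod, ← Finset.mul_prod_erase _ _ hg'] at hL
      refine le_antisymm (hle _) ?_
      by_contra hlt
      push Not at hlt
      have h1 : ∏ b ∈ hSfin.toFinset.erase g, ‖(N b : L)‖ ≤ 1 :=
        Finset.prod_le_one (fun _ _ => norm_nonneg _) fun b _ => hle _
      have := mul_le_mul (le_refl ‖(N g : L)‖) h1 (Finset.prod_nonneg fun _ _ => norm_nonneg _) (norm_nonneg _)
      linarith
    exact REC.t K n I hI L σ S (fun g hg => hNg g hg L σ (hNL g hg)) x hx ε hε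

/-- orbits are dense -/
theorem dense_orbit (hI : Homog I) (hs : IsSurface I) {r s : ℕ} (hrs : r ≠ s) (P : Fin r → Equiv.Perm (RatPt I))
    (Q : Fin s → Equiv.Perm (RatPt I))
    (hP : ∀ i, RegK I (P i) ∧ RegK I (P i).symm) (hQ : ∀ j, RegK I (Q j) ∧ RegK I (Q j).symm)
    (π : RatPt I → Fin (N + 1) → K) (hπ : RegV I π)
    {C1 : ℝ} (hrel : ∀ p, |∑ i, logHeight (π (P i p)) - ∑ j, logHeight (π (Q j p))| ≤ C1)
    (U : Set (RatPt I)) (hU : ∀ γ ∈ Subgroup.closure (Set.range P ∪ Set.range Q), ∀ y ∈ U, γ y ∈ U)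
    (hUN : ∀ B : ℝ, {p : RatPt I | p ∈ U ∧ logHeight (π p) ≤ B}.Finite)
    (Γ : Subgroup (Equiv.Perm (RatPt I))) (hΓ : Γ ≤ Subgroup.closure (Set.range P ∪ Set.range Q))
    (hidx : Γ.relIndex (Subgroup.closure (Set.range P ∪ Set.range Q)) ≠ 0) (p : RatPt I) (hp : p ∈ U)
    (hinf : ¬ (MulAction.orbit (Subgroup.closure (Set.range P ∪ Set.range Q)) p).Finite)
    {d : ℕ} {g : Poly K n} (hg : g.IsHomogeneous d) (hgI : g ∉ I) : ∃ γ ∈ Γ, eval (vec (γ p)) g ≠ 0 := by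
  by_contra hcon
  push Not at hcon
  obtain ⟨hp', ℓ, hℓ, hℓ0⟩ := hs
  obtain ⟨m, hm1, hm0⟩ := MZ.NORM.t K n I hp' hI ℓ hℓ hℓ0 g d hg hgI
  refine curveX hrs P Q hP hQ π hπ hrel U hU hUN Γ hΓ hidx {y | ∃ γ ∈ Γ, y = γ p} ?_
    (fun hfin => hinf (orb_fin hΓ hidx hfin)) ?_ (I ⊔ Ideal.span {g}) (MZ.homog_sup I hI hg) m hm1 hm0 ?_
  · rintro _ ⟨γ, hγ, rfl⟩
    exact hU γ (hΓ hγ) p hp
  · rintro γ hγ _ ⟨γ', hγ', rfl⟩
    exact ⟨γ * γ', mul_mem hγ hγ', rfl⟩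
  · rintro _ ⟨γ, hγ, rfl⟩ f hf
    have hle : I ⊔ Ideal.span {g} ≤ RingHom.ker (eval (vec (γ p))) := by
      refine sup_le (fun h hh => (vec_pt (γ p)).2 h hh) ?_
      rw [Ideal.span_le]
      rintro _ rfl
      exact hcon γ hγ
    exact hle hf

/-- `A` is Zariski dense in `X` (for `X` irreducible). -/
def ZDense (I : Ideal (Poly K n)) (A : Set (RatPt I)) : Prop :=
  ∀ (d : ℕ) (g : Poly K n), g.IsHomogeneous d → g ∉ I → ∃ q ∈ A, eval (vec q) g ≠ 0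

theorem cyc_main {π : RatPt I → ℙ K (Fin (N + 1) → K)} (hI : Homog I) (hs : IsSurface I) (hπ : RegularTo I π)
    (hinv : InvOut I E π) {k : ℕ} (hk : Odd k) (σs : Fin k → Equiv.Perm (RatPt I))
    (hσ : ∀ i, IsAut I (σs i)) (hσE : ∀ i p, On E (σs i p) ↔ On E p) (hσD : ∀ i, Deck I (σs i))
    {f : Equiv.Perm (RatPt I)} (hf : f = (List.ofFn σs).prod)
    {r s : ℕ} (hrs : r ≠ s) (a : Fin r → ℕ) (b : Fin s → ℕ)
    (hrel : LinEquivTo I (fun i p => π ((f ^ a i) p)) (fun j p => π ((f ^ b j) p))) :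
    {p : RatPt I | ¬ On E p ∧ (MulAction.orbit (Subgroup.zpowers f) p).Finite}.Finite ∧
    (∀ p : RatPt I, ¬ On E p → ¬ (MulAction.orbit (Subgroup.zpowers f) p).Finite → ZDense I {q | REq q p}) ∧
    ∃ M : ℕ, M ≠ 0 ∧
      ∀ (L : Type) [NontriviallyNormedField L] [IsUltrametricDist L] [ProperSpace L] (σ : K →+* L), ‖(M : L)‖ = 1 →
        ∀ p : RatPt I, ¬ On E p → ¬ (MulAction.orbit (Subgroup.zpowers f) p).Finite → ∀ ε : ℝ, 0 < ε →
          ZDense I {q | REq q p ∧ Nr σ (vec q) (fun i => σ (vec p i)) ε} := by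
  classical
  set P : Fin r → Equiv.Perm (RatPt I) := fun i => f ^ a i with hP
  set Q : Fin s → Equiv.Perm (RatPt I) := fun j => f ^ b j with hQ
  set Γ0 : Subgroup (Equiv.Perm (RatPt I)) := Subgroup.closure (Set.range P ∪ Set.range Q) with hΓ0
  set S : Set (Equiv.Perm (RatPt I)) := Set.range σs with hS
  have hfS : f ∈ Subgroup.closure S := by
    rw [hf]
    refine Subgroup.list_prod_mem _ fun g hg => ?_
    obtain ⟨i, rfl⟩ := (List.mem_ofFn' _ _).1 hg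
    exact Subgroup.subset_closure ⟨i, rfl⟩
  have hzS : Subgroup.zpowers f ≤ Subgroup.closure S := by
    rw [Subgroup.zpowers_le]; exact hfS
  have hΓz : Γ0 ≤ Subgroup.zpowers f := by
    rw [hΓ0, Subgroup.closure_le]
    rintro _ (⟨i, rfl⟩ | ⟨j, rfl⟩)
    · exact Subgroup.npow_mem_zpowers f _
    · exact Subgroup.npow_mem_zpowers f _
  have hregS : ∀ γ ∈ Subgroup.closure S, RegK I γ ∧ RegK I γ.symm := fun γ hγ =>
    closure_reg REGC.t (by rintro _ ⟨i, rfl⟩; exact ⟨(hσ i).1.regK, (hσ i).2.regK⟩) hγ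
  have hstab : ∀ γ ∈ Subgroup.closure S, ∀ p, On E (γ p) ↔ On E p := by
    intro γ hγ
    induction hγ using Subgroup.closure_induction with
    | mem g hg => obtain ⟨i, rfl⟩ := hg; exact hσE i
    | one => intro p; rfl
    | mul a b _ _ ha hb => intro p; rw [Equiv.Perm.mul_apply, ha, hb]
    | inv a _ ha =>
      intro p
      rw [← ha (a⁻¹ p)]
      rw [show a (a⁻¹ p) = p from a.apply_symm_apply p]
  have hPr : ∀ i, RegK I (P i) ∧ RegK I (P i).symm := fun i => hregS _ (hzS (Subgroup.npow_mem_zpowers f _))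
  have hQr : ∀ j, RegK I (Q j) ∧ RegK I (Q j).symm := fun j => hregS _ (hzS (Subgroup.npow_mem_zpowers f _))
  obtain ⟨C1, hC1⟩ := hrelX hI _ _ hrel
  set U : Set (RatPt I) := {p | ¬ On E p} with hUdef
  have hU : ∀ γ ∈ Γ0, ∀ y ∈ U, γ y ∈ U := fun γ hγ y hy h => hy ((hstab γ (hzS (hΓz hγ)) y).1 h)
  have hUN := northcottX hinv
  have hF : {y : RatPt I | y ∈ U ∧ (MulAction.orbit Γ0 y).Finite}.Finite :=
    forbU (fun p => logHeight (π p).rep) U hUN hrs P Q hU C1 hC1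
  -- orbits under `f`
  have hcomm : ∀ γ ∈ Γ0, ∀ φ ∈ Subgroup.zpowers f, ∀ y, γ (φ y) = φ (γ y) := by
    intro γ hγ φ hφ y
    obtain ⟨i, rfl⟩ := Subgroup.mem_zpowers_iff.1 (hΓz hγ)
    obtain ⟨j, rfl⟩ := Subgroup.mem_zpowers_iff.1 hφ
    rw [← Equiv.Perm.mul_apply, ← Equiv.Perm.mul_apply, ← zpow_add, ← zpow_add, add_comm]
  have hFst : ∀ φ ∈ Subgroup.zpowers f, ∀ y ∈ {y : RatPt I | y ∈ U ∧ (MulAction.orbit Γ0 y).Finite},
      φ y ∈ {y : RatPt I | y ∈ U ∧ (MulAction.orbit Γ0 y).Finite} := by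
    rintro φ hφ y ⟨hy1, hy2⟩
    refine ⟨fun h => hy1 ((hstab φ (hzS hφ) y).1 h), (hy2.image φ).subset ?_⟩
    rintro _ ⟨γ, rfl⟩
    exact ⟨γ.1 y, ⟨γ, rfl⟩, (hcomm γ.1 γ.2 φ hφ y).symm⟩
  have hinf : ∀ p ∈ U, ¬ (MulAction.orbit (Subgroup.zpowers f) p).Finite → ¬ (MulAction.orbit Γ0 p).Finite := by
    intro p hp h h'
    refine h (hF.subset ?_)
    rintro _ ⟨φ, rfl⟩
    exact hFst φ.1 φ.2 p ⟨hp, h'⟩
  -- the classes
  have hsq : ∀ p, cls (f (f p)) = cls p := by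
    intro p
    rw [hf]
    refine cls_sq _ (fun g hg => ?_) (by rw [List.length_ofFn]; exact hk) p
    obtain ⟨i, rfl⟩ := (List.mem_ofFn' _ _).1 hg
    exact hσD i
  have hsq' : ∀ (j : ℤ) (p : RatPt I), cls ((f ^ (2 * j)) p) = cls p := by
    intro j
    induction j using Int.induction_on with
    | zero => intro p; simp
    | succ i ih =>
      intro p
      have : f ^ (2 * ((i : ℤ) + 1)) = f * f * f ^ (2 * (i : ℤ)) := by
        rw [show 2 * ((i : ℤ) + 1) = 1 + 1 + 2 * i by ring, zpow_add, zpow_add, zpow_one]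
      rw [this, Equiv.Perm.mul_apply, Equiv.Perm.mul_apply, hsq, ih]
    | pred i ih =>
      intro p
      have : f * f * f ^ (2 * (-(i : ℤ) - 1)) = f ^ (2 * (-(i : ℤ))) := by
        rw [show 2 * (-(i : ℤ)) = 1 + 1 + 2 * (-(i : ℤ) - 1) by ring, zpow_add, zpow_add, zpow_one]
      rw [← hsq ((f ^ (2 * (-(i : ℤ) - 1))) p), ← Equiv.Perm.mul_apply, ← Equiv.Perm.mul_apply, this, ih]
  let H : Subgroup (Equiv.Perm (RatPt I)) :=
    { carrier := {γ | γ ∈ Γ0 ∧ ∀ p, cls (γ p) = cls p}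
      one_mem' := ⟨one_mem _, fun p => rfl⟩
      mul_mem' := by
        rintro a b ⟨ha, ha'⟩ ⟨hb, hb'⟩
        exact ⟨mul_mem ha hb, fun p => by rw [Equiv.Perm.mul_apply, ha', hb']⟩
      inv_mem' := by
        rintro a ⟨ha, ha'⟩
        refine ⟨inv_mem ha, fun p => ?_⟩
        rw [← ha' (a⁻¹ p)]
        rw [show a (a⁻¹ p) = p from a.apply_symm_apply p] }
  have hHle : H ≤ Γ0 := fun γ hγ => hγ.1
  have heven : ∀ (γ : Equiv.Perm (RatPt I)) (j : ℤ), γ ∈ Γ0 → γ = f ^ (2 * j) → γ ∈ H := by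
    rintro γ j hγ rfl
    exact ⟨hγ, hsq' j⟩
  have hHidx : H.relIndex Γ0 ≠ 0 := by
    set H' : Subgroup Γ0 := H.subgroupOf Γ0 with hH'
    have hfin : Finite (Γ0 ⧸ H') := by
      refine Finite.of_injective (fun c : Γ0 ⧸ H' => ((c.out : Γ0) : Equiv.Perm (RatPt I)) ∈ H) ?_
      intro c c' h
      rw [← QuotientGroup.out_eq' c, ← QuotientGroup.out_eq' c', QuotientGroup.eq, Subgroup.mem_subgroupOf]
      have hmem : (((c.out : Γ0)⁻¹ * (c'.out : Γ0) : Γ0) : Equiv.Perm (RatPt I)) ∈ Γ0 := ((c.out : Γ0)⁻¹ * c'.out).2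
      have hval : (((c.out : Γ0)⁻¹ * (c'.out : Γ0) : Γ0) : Equiv.Perm (RatPt I)) =
        (c.out : Γ0).1⁻¹ * (c'.out : Γ0).1 := rfl
      simp only [eq_iff_iff] at h
      by_cases h1 : (c.out : Γ0).1 ∈ H
      · rw [hval]
        exact mul_mem (inv_mem h1) (h.1 h1)
      · have h2 : (c'.out : Γ0).1 ∉ H := fun h3 => h1 (h.2 h3)
        obtain ⟨i, hi⟩ := Subgroup.mem_zpowers_iff.1 (hΓz (c.out : Γ0).2)
        obtain ⟨j, hj⟩ := Subgroup.mem_zpowers_iff.1 (hΓz (c'.out : Γ0).2)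
        have hodd : ∀ (γ : Equiv.Perm (RatPt I)) (i : ℤ), γ ∈ Γ0 → f ^ i = γ → γ ∉ H → Odd i := by
          intro γ i hγ hi hn
          rw [← Int.not_even_iff_odd]
          rintro ⟨l, hl⟩
          exact hn (heven γ l hγ (by rw [← hi, hl]; congr 1; ring))
        obtain ⟨u, hu⟩ := hodd _ i (c.out : Γ0).2 hi h1
        obtain ⟨v, hv⟩ := hodd _ j (c'.out : Γ0).2 hj h2
        refine heven _ (v - u) hmem ?_
        rw [hval, ← hi, ← hj, ← zpow_neg, ← zpow_add]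
        congr 1
        rw [hu, hv]; ring
    have := Subgroup.finiteIndex_of_finite_quotient (H := H')
    exact this.index_ne_zero
  have hreq : ∀ γ ∈ H, ∀ p, REq (γ p) p := fun γ hγ p => (req_iff _ _).2 (hγ.2 p)
  refine ⟨hF.subset ?_, ?_, ?_⟩
  · rintro p ⟨hp, hfin⟩
    refine ⟨hp, hfin.subset ?_⟩
    rintro _ ⟨γ, rfl⟩
    exact ⟨⟨γ.1, hΓz γ.2⟩, rfl⟩
  · intro p hp hpinf d g hg hgI
    obtain ⟨γ, hγ, h⟩ := dense_orbit hI hs hrs P Q hPr hQr (fun p => (π p).rep) hπ.regV hC1 U hU hUN H hHle hHidx p hp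
      (hinf p hp hpinf) hg hgI
    exact ⟨γ p, hreq γ hγ p, h⟩
  · obtain ⟨M, hM, hdisc⟩ := good_discs hI (S := S) (Set.finite_range σs) (by rintro _ ⟨i, rfl⟩; exact hσ i)
    refine ⟨M, hM, fun L _ _ _ σ hL p hp hpinf ε hε d g hg hgI => ?_⟩
    have hx : (fun i => σ (vec p i)) ≠ 0 := by
      intro h0
      apply vec_ne p
      funext i
      exact (map_eq_zero σ).1 (congrFun h0 i)
    obtain ⟨δ, Γ, hδ, hδε, hΓ, hidx, hst⟩ := hdisc L σ hL _ hx ε hε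
    have h1 : (Γ ⊓ H).relIndex Γ0 ≠ 0 :=
      Subgroup.relIndex_inf_ne_zero (mt (Subgroup.relIndex_eq_zero_of_le_right (hΓz.trans hzS)) hidx) hHidx
    obtain ⟨γ, hγ, h⟩ := dense_orbit hI hs hrs P Q hPr hQr (fun p => (π p).rep) hπ.regV hC1 U hU hUN (Γ ⊓ H)
      (inf_le_right.trans hHle) h1 p hp (hinf p hp hpinf) hg hgI
    refine ⟨γ p, ⟨hreq γ hγ.2 p, nr_mono (hst γ hγ.1 p ⟨1, one_ne_zero, fun i => ?_⟩) hδε⟩, h⟩
    simpa using hδ

end D

end Pool.Agent.H55.MX
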