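import Pool.Agent.H55.MX.Core

/-!
# Project MX: assembly
-/

set_option autoImplicit false

open MvPolynomial Filter Topology Height
open scoped LinearAlgebra.Projectivization

namespace Pool.Agent.H55.MX

open Pool.Agent.H55.MZ (Poly NoZero Homog Pt Par eval_smul_hom eval_bind eval_smul_sum Near localIdeal pointIdeal)
open Pool.Agent.H55.MG
open Pool.Agent.H55.MG.ACT (eval_map_smul)

section A

variable {K : Type} [Field K] {n N : ℕ} {I : Ideal (Poly K n)}

/-- finitely many finite orbits in a stable set -/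
theorem forbU {Y : Type} (h : Y → ℝ) (U : Set Y) (hN : ∀ B : ℝ, {y | y ∈ U ∧ h y ≤ B}.Finite) {r s : ℕ} (hrs : r ≠ s)
    (P : Fin r → Equiv.Perm Y) (Q : Fin s → Equiv.Perm Y)
    (hU : ∀ γ ∈ Subgroup.closure (Set.range P ∪ Set.range Q), ∀ y ∈ U, γ y ∈ U) (C : ℝ)
    (hC : ∀ y, |∑ i, h (P i y) - ∑ j, h (Q j y)| ≤ C) :
    {y : Y | y ∈ U ∧ (MulAction.orbit (Subgroup.closure (Set.range P ∪ Set.range Q)) y).Finite}.Finite := by
  classical
  set Γ0 : Subgroup (Equiv.Perm Y) := Subgroup.closure (Set.range P ∪ Set.range Q) with hΓ0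
  have hkey : ∀ y : Y, (MulAction.orbit Γ0 y).Finite → ∃ z ∈ MulAction.orbit Γ0 y, h z ≤ C := by
    intro y hfin
    set O : Finset Y := hfin.toFinset with hO
    have hmem : ∀ z, z ∈ O ↔ z ∈ MulAction.orbit Γ0 y := fun z => Set.Finite.mem_toFinset hfin
    have hyO : y ∈ O := (hmem y).2 (MulAction.mem_orbit_self y)
    -- sums over the orbit
    have hsum : ∀ γ ∈ Γ0, ∑ z ∈ O, h (γ z) = ∑ z ∈ O, h z := by
      intro γ hγ
      refine Finset.sum_bij (fun z _ => γ z) ?_ ?_ ?_ ?_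
      · intro z hz
        rw [hmem] at hz ⊢
        have := MulAction.mem_orbit_of_mem_orbit (⟨γ, hγ⟩ : Γ0) hz
        exact this
      · intro a _ b _ hab
        exact γ.injective hab
      · intro z hz
        rw [hmem] at hz
        have := MulAction.mem_orbit_of_mem_orbit (⟨γ⁻¹, inv_mem hγ⟩ : Γ0) hz
        refine ⟨γ⁻¹ z, (hmem _).2 this, ?_⟩
        exact γ.apply_symm_apply z
      · intro z _; rfl
    have h1 : ∑ z ∈ O, (∑ i, h (P i z) - ∑ j, h (Q j z)) = ((r : ℝ) - s) * ∑ z ∈ O, h z := by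
      rw [Finset.sum_sub_distrib, Finset.sum_comm, Finset.sum_comm (t := Finset.univ (α := Fin s))]
      rw [Finset.sum_congr rfl fun i _ => hsum (P i) (Subgroup.subset_closure (Or.inl ⟨i, rfl⟩))]
      rw [Finset.sum_congr rfl fun j _ => hsum (Q j) (Subgroup.subset_closure (Or.inr ⟨j, rfl⟩))]
      simp only [Finset.sum_const, Finset.card_univ, Fintype.card_fin, nsmul_eq_mul]
      ring
    have h2 : |∑ z ∈ O, (∑ i, h (P i z) - ∑ j, h (Q j z))| ≤ O.card * C := by
      refine (Finset.abs_sum_le_sum_abs _ _).trans ?_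
      refine (Finset.sum_le_sum fun z _ => hC z).trans ?_
      rw [Finset.sum_const, nsmul_eq_mul]
    have h3 : (1 : ℝ) ≤ |(r : ℝ) - s| := by
      have : (1 : ℤ) ≤ |(r : ℤ) - s| := Int.one_le_abs (sub_ne_zero.2 (by exact_mod_cast hrs))
      exact_mod_cast this
    by_contra hcon
    push Not at hcon
    have hCnn : 0 ≤ C := (abs_nonneg _).trans (hC y)
    have h4 : O.card * C < ∑ z ∈ O, h z := by
      have : ∑ z ∈ O, C < ∑ z ∈ O, h z :=
        Finset.sum_lt_sum_of_nonempty ⟨y, hyO⟩ fun z hz => hcon z ((hmem z).1 hz)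
      rwa [Finset.sum_const, nsmul_eq_mul] at this
    have h5 : 0 ≤ ∑ z ∈ O, h z := by
      have : (0 : ℝ) ≤ O.card * C := by positivity
      linarith
    rw [h1, abs_mul, abs_of_nonneg h5] at h2
    nlinarith
  refine Set.Finite.subset (s := ⋃ z ∈ {z | (z ∈ U ∧ h z ≤ C) ∧ (MulAction.orbit Γ0 z).Finite},
    MulAction.orbit Γ0 z) ?_ ?_
  · exact ((hN C).subset fun z hz => hz.1).biUnion fun z hz => hz.2
  · rintro y ⟨hyU, hy⟩
    obtain ⟨z, hz, hzC⟩ := hkey y hy
    refine Set.mem_biUnion (x := z) ⟨⟨?_, hzC⟩, ?_⟩ ?_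
    · obtain ⟨γ, rfl⟩ := hz
      exact hU γ γ.2 y hyU
    · rw [MulAction.orbit_eq_iff.2 hz]; exact hy
    · rw [MulAction.orbit_eq_iff.2 hz]; exact MulAction.mem_orbit_self y

/-- the relation of heights -/
theorem hrelX [NumberField K] (hI : Homog I) {r s : ℕ} (P : Fin r → RatPt I → ℙ K (Fin (N + 1) → K))
    (Q : Fin s → RatPt I → ℙ K (Fin (N + 1) → K)) (hPQ : LinEquivTo I P Q) :
    ∃ C : ℝ, ∀ p, |∑ i, logHeight ((P i p).rep) - ∑ j, logHeight ((Q j p).rep)| ≤ C := by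
  obtain ⟨m, D, A, B, hA, hA0, hB, hB0, hAB⟩ := hPQ
  obtain ⟨C1, hC1⟩ := HREL.htf hI (fun a : Fin (m + 1) × (Fin r → Fin (N + 1)) => hA a.1 a.2) hA0
  obtain ⟨C2, hC2⟩ := HREL.htf hI (fun a : Fin (m + 1) × (Fin s → Fin (N + 1)) => hB a.1 a.2) hB0
  refine ⟨C1 + C2, fun p => ?_⟩
  obtain ⟨u, c, hu, hc, h1, h2⟩ := hAB p
  have e1 := hC1 (vec p) p.2
  have e2 := hC2 (vec p) p.2
  have f1 : (fun a : Fin (m + 1) × (Fin r → Fin (N + 1)) => eval (vec p) (A a.1 a.2)) =
      fun a => 1 * (u a.1 * ∏ i, (P i p).rep (a.2 i)) := by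
    funext a; rw [h1, one_mul]
  have f2 : (fun a : Fin (m + 1) × (Fin s → Fin (N + 1)) => eval (vec p) (B a.1 a.2)) =
      fun a => c * (u a.1 * ∏ j, (Q j p).rep (a.2 j)) := by
    funext a; rw [h2]
  rw [f1, HREL.htt hu (fun i => (P i p).rep) (fun i => (P i p).rep_nonzero) one_ne_zero] at e1
  rw [f2, HREL.htt hu (fun j => (Q j p).rep) (fun j => (Q j p).rep_nonzero) hc] at e2
  rw [abs_le] at e1 e2 ⊢
  constructor <;> linarith [e1.1, e1.2, e2.1, e2.2]

/-- Northcott outside of `E` -/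
theorem northcottX [NumberField K] {E : Ideal (Poly K n)} {π : RatPt I → ℙ K (Fin (N + 1) → K)}
    (hE : InvOut I E π) (B : ℝ) : {p : RatPt I | ¬ On E p ∧ logHeight ((π p).rep) ≤ B}.Finite := by
  classical
  obtain ⟨k, e, G, hG, hinv⟩ := hE
  have h1 : ∀ j, ∃ C, ∀ x : Fin (N + 1) → K, logHeight (fun i => eval x (G j i)) ≤ C + e j * logHeight x := fun j =>
    logHeight_eval_le' (K := K) (p := G j) (N := e j) (hG j)
  choose C hC using h1
  set M : ℝ := ∑ j, (|C j| + e j * |B|) with hM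
  refine (northcott_pt I M).subset ?_
  rintro p ⟨hp, hpB⟩
  obtain ⟨j, c, hc, hj⟩ := hinv p hp
  have h2 : (fun i => eval (π p).rep (G j i)) = c • vec p := by
    funext i; rw [hj i]; rfl
  have h3 := hC j (π p).rep
  rw [h2, logHeight_smul_eq_logHeight _ hc] at h3
  have h4 : |C j| + e j * |B| ≤ M :=
    Finset.single_le_sum (f := fun j => |C j| + (e j : ℝ) * |B|) (fun j _ => by positivity) (Finset.mem_univ j)
  have h5 : (e j : ℝ) * logHeight (π p).rep ≤ e j * |B| := by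
    gcongr
    exact hpB.trans (le_abs_self B)
  have h6 := le_abs_self (C j)
  show logHeight (vec p) ≤ M
  linarith

/-- `K`-points outside of `E` have a neighbourhood without points of `E` -/
lemma away {E : Ideal (Poly K n)} (hE : Homog E) {L : Type} [NormedField L] (σ : K →+* L) {p : RatPt I}
    (hp : ¬ On E p) {x : Fin (n + 1) → L} {c0 : L} (hx : x = fun i => c0 * σ (vec p i)) (hc0 : c0 ≠ 0) :
    ∃ η : ℝ, 0 < η ∧ ∀ w : RatPt I, Nr σ (vec w) x η → ¬ On E w := by
  unfold On at hp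
  push Not at hp
  obtain ⟨g, hgE, hg⟩ := hp
  obtain ⟨t, ht⟩ : ∃ t, eval (vec p) (homogeneousComponent t g) ≠ 0 := by
    by_contra hcon
    push Not at hcon
    apply hg
    rw [← one_smul K (vec p), eval_smul_sum]
    exact Finset.sum_eq_zero fun t _ => by rw [hcon t, mul_zero]
  set f := homogeneousComponent t g with hf
  have hfh : f.IsHomogeneous t := homogeneousComponent_isHomogeneous t g
  have hval : eval x (map σ f) ≠ 0 := by
    rw [hx, eval_map_smul σ hfh]
    exact mul_ne_zero (pow_ne_zero _ hc0) ((map_ne_zero σ).2 ht)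
  have hc : Continuous fun v : Fin (n + 1) → L => eval v (map σ f) := MvPolynomial.continuous_eval _
  obtain ⟨η, hη, hη'⟩ := Metric.continuousAt_iff.1 (hc.continuousAt (x := x)) ‖eval x (map σ f)‖
    (norm_pos_iff.2 hval)
  refine ⟨η, hη, fun w ⟨c, hc, hn⟩ hon => ?_⟩
  have h1 : dist (eval (fun i => c * σ (vec w i)) (map σ f)) (eval x (map σ f)) < ‖eval x (map σ f)‖ := by
    apply hη'
    rw [dist_pi_lt_iff hη]
    intro i
    rw [dist_eq_norm]
    exact hn i
  rw [eval_map_smul σ hfh, hon _ (hE g hgE t), map_zero, mul_zero, dist_eq_norm, zero_sub, norm_neg] at h1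
  exact lt_irrefl _ h1

/-- the alternatives near a point if all near points lie on `E` or in a finite set -/
lemma dich {E : Ideal (Poly K n)} (hI : Homog I) (hE : Homog E) (hIE : I ≤ E) {L : Type} [NormedField L]
    (σ : K →+* L) {x : Fin (n + 1) → L} (hx : x ≠ 0) {T : Set (RatPt I)} (hT : T.Finite) (hTE : ∀ p ∈ T, ¬ On E p)
    {δ : ℝ} (hδ : 0 < δ) (hnear : ∀ w : RatPt I, Nr σ (vec w) x δ → On E w ∨ w ∈ T) :
    localIdeal I σ x = localIdeal E σ x ∨ ∃ p ∈ T, (∃ c : L, c ≠ 0 ∧ x = fun i => c * σ (vec p i)) ∧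
      localIdeal I σ x = pointIdeal (vec p) ∧ ∃ ε : ℝ, 0 < ε ∧ ∀ w : RatPt I, Nr σ (vec w) x ε → w = p := by
  classical
  have hex : ∀ w : RatPt I, ∃ ε : ℝ, 0 < ε ∧
      ((∃ c : L, c ≠ 0 ∧ x = fun i => c * σ (vec w i)) ∨ ¬ Nr σ (vec w) x ε) := by
    intro w
    by_cases h : ∃ c : L, c ≠ 0 ∧ x = fun i => c * σ (vec w i)
    · exact ⟨1, one_pos, Or.inl h⟩
    · obtain ⟨ε, hε, h'⟩ := MZ.not_near (vec_ne w) h hx
      exact ⟨ε, hε, Or.inr h'⟩
  choose e he he' using hex
  obtain ⟨ε, hε, hle⟩ : ∃ ε : ℝ, 0 < ε ∧ ∀ w ∈ hT.toFinset, ε ≤ e w := by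
    by_cases hSe : hT.toFinset.Nonempty
    · obtain ⟨g0, hg0, hmin⟩ := Finset.exists_min_image hT.toFinset e hSe
      exact ⟨e g0, he g0, fun g hg => hmin g hg⟩
    · rw [Finset.not_nonempty_iff_eq_empty] at hSe
      exact ⟨1, one_pos, fun g hg => by simp [hSe] at hg⟩
  have hnear' : ∀ w : RatPt I, Nr σ (vec w) x (min δ ε) →
      On E w ∨ (w ∈ T ∧ ∃ c : L, c ≠ 0 ∧ x = fun i => c * σ (vec w i)) := by
    intro w hw
    rcases hnear w (nr_mono hw (min_le_left _ _)) with h | h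
    · exact Or.inl h
    · right
      refine ⟨h, ?_⟩
      rcases he' w with h' | h'
      · exact h'
      · exact absurd (nr_mono hw ((min_le_right _ _).trans (hle w ((Set.Finite.mem_toFinset hT).2 h)))) h'
  by_cases hB : ∃ p ∈ T, ∃ c : L, c ≠ 0 ∧ x = fun i => c * σ (vec p i)
  · obtain ⟨p, hpT, c, hc, hxp⟩ := hB
    right
    obtain ⟨η, hη, haway⟩ := away hE σ (hTE p hpT) hxp hc
    have huniq : ∀ w : RatPt I, Nr σ (vec w) x (min (min δ ε) η) → w = p := by
      intro w hw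
      rcases hnear' w (nr_mono hw (min_le_left _ _)) with h | ⟨_, c', hc', hxw⟩
      · exact absurd h (haway w (nr_mono hw (min_le_right _ _)))
      apply eq_of_par
      have h1 : ∀ i, c' * σ (vec w i) = c * σ (vec p i) := fun i => by
        have := congrFun (hxw.symm.trans hxp) i
        simpa using this
      refine MZ.par_of_minors (vec_ne w) (vec_ne p) fun l m => ?_
      apply σ.injective
      rw [map_mul, map_mul]
      apply mul_left_cancel₀ hc'
      have e1 := h1 l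
      have e2 := h1 m
      linear_combination σ (vec p l) * e2 - σ (vec p m) * e1
    refine ⟨p, hpT, ⟨c, hc, hxp⟩, le_antisymm ?_ ?_, min (min δ ε) η, lt_min (lt_min hδ hε) hη, huniq⟩
    · intro g hg a ha
      rw [mem_loc hI] at hg
      obtain ⟨η, hη, h⟩ := hg
      refine h p ⟨c, hc, fun i => ?_⟩ a ha
      rw [hxp]; simpa using hη
    · intro g hg
      rw [mem_loc hI]
      refine ⟨min (min δ ε) η, lt_min (lt_min hδ hε) hη, fun w hw c hc => ?_⟩
      rw [huniq w hw]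
      exact hg c hc
  · left
    apply le_antisymm
    · rintro g ⟨ε', hε', hg⟩
      exact ⟨ε', hε', fun w hw hn => hg w ⟨hw.1, fun f hf => hw.2 f (hIE hf)⟩ hn⟩
    · rintro g ⟨ε', hε', hg⟩
      refine ⟨min ε' (min δ ε), lt_min hε' (lt_min hδ hε), fun w hw hn => ?_⟩
      obtain ⟨p, hp⟩ := exists_pt hI hw
      have hn' : Nr σ (vec p) x (min ε' (min δ ε)) := MZ.Near.par hn hp
      rcases hnear' p (nr_mono hn' (min_le_right _ _)) with h | ⟨h1, h2⟩
      · obtain ⟨a, ha, hwa⟩ := hp.symm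
        have h3 : Pt E w := by
          rw [hwa]
          exact Pt.smul hE ⟨vec_ne p, h⟩ ha
        exact hg w h3 (nr_mono hn (min_le_left _ _))
      · exact absurd ⟨p, h1, h2⟩ hB

end A

end Pool.Agent.H55.MX
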