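import Pool.Agent.H55.MX.Fin

/-!
# Project MX: assembly, part 2
-/

set_option autoImplicit false

open MvPolynomial Filter Topology Height
open scoped LinearAlgebra.Projectivization

namespace Pool.Agent.H55.MX

open Pool.Agent.H55.MZ (Poly NoZero Homog Pt Par eval_smul_hom eval_bind eval_smul_sum Near localIdeal pointIdeal)
open Pool.Agent.H55.MG

/-- `f` is an automorphism of `X`: the permutation `f` of `X(K)` and its inverse are given by forms on `X`. -/
def IsAut {K : Type} [Field K] {n : ℕ} (I : Ideal (Poly K n)) (f : Equiv.Perm (RatPt I)) : Prop :=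
  Regular I f ∧ Regular I f.symm

/-- The group generated by the `P i` and `Q j`. -/
def grp {Y : Type} {r s : ℕ} (P : Fin r → Equiv.Perm Y) (Q : Fin s → Equiv.Perm Y) : Subgroup (Equiv.Perm Y) :=
  Subgroup.closure (Set.range P ∪ Set.range Q)

section B

variable {K : Type} [Field K] [NumberField K] {n N : ℕ} {I E : Ideal (Poly K n)}

/-- the setting -/
structure Setting (I E : Ideal (Poly K n)) (π : RatPt I → ℙ K (Fin (N + 1) → K)) {r s : ℕ}
    (P : Fin r → Equiv.Perm (RatPt I)) (Q : Fin s → Equiv.Perm (RatPt I)) : Prop where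
  hI : Homog I
  hE : Homog E
  hIE : I ≤ E
  hrs : r ≠ s
  hπ : RegularTo I π
  hinv : InvOut I E π
  hP : ∀ i, IsAut I (P i)
  hQ : ∀ j, IsAut I (Q j)
  sP : ∀ i p, On E (P i p) ↔ On E p
  sQ : ∀ j p, On E (Q j p) ↔ On E p
  hPQ : LinEquivTo I (fun i p => π (P i p)) (fun j p => π (Q j p))

variable {π : RatPt I → ℙ K (Fin (N + 1) → K)} {r s : ℕ} {P : Fin r → Equiv.Perm (RatPt I)}
  {Q : Fin s → Equiv.Perm (RatPt I)}

lemma Setting.stab (h : Setting I E π P Q) : ∀ γ ∈ grp P Q, ∀ p, On E (γ p) ↔ On E p := by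
  intro γ hγ
  unfold grp at hγ
  induction hγ using Subgroup.closure_induction with
  | mem g hg =>
    rcases hg with ⟨i, rfl⟩ | ⟨j, rfl⟩
    · exact h.sP i
    · exact h.sQ j
  | one => intro p; rfl
  | mul a b _ _ ha hb => intro p; rw [Equiv.Perm.mul_apply, ha, hb]
  | inv a _ ha =>
    intro p
    rw [← ha (a⁻¹ p)]
    rw [show a (a⁻¹ p) = p from a.apply_symm_apply p]

lemma Setting.stabU (h : Setting I E π P Q) : ∀ γ ∈ grp P Q, ∀ p ∈ {p : RatPt I | ¬ On E p},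
    γ p ∈ {p : RatPt I | ¬ On E p} := fun γ hγ p hp => fun h' => hp ((h.stab γ hγ p).1 h')

lemma Setting.reg (h : Setting I E π P Q) : ∀ γ ∈ grp P Q, RegK I γ ∧ RegK I γ.symm := fun γ hγ =>
  closure_reg REGC.t (by
    rintro g (⟨i, rfl⟩ | ⟨j, rfl⟩)
    · exact ⟨(h.hP i).1.regK, (h.hP i).2.regK⟩
    · exact ⟨(h.hQ j).1.regK, (h.hQ j).2.regK⟩) hγ

/-- the main lemma -/
lemma Setting.curve (h : Setting I E π P Q) (Γ : Subgroup (Equiv.Perm (RatPt I))) (hΓ : Γ ≤ grp P Q)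
    (hidx : Γ.relIndex (grp P Q) ≠ 0) (T : Set (RatPt I)) (hTE : ∀ p ∈ T, ¬ On E p) (hTinf : T.Infinite)
    (hT : ∀ γ ∈ Γ, ∀ y ∈ T, γ y ∈ T) (J : Ideal (Poly K n)) (hJ : Homog J) (m : Fin 2 → Poly K n)
    (hm : ∀ i, (m i).IsHomogeneous 1) (h0 : NoZero J m) (hTJ : ∀ q ∈ T, ∀ f ∈ J, eval (vec q) f = 0) : False := by
  obtain ⟨C1, hC1⟩ := hrelX h.hI _ _ h.hPQ
  exact curveX h.hrs P Q (fun i => ⟨(h.hP i).1.regK, (h.hP i).2.regK⟩) (fun j => ⟨(h.hQ j).1.regK, (h.hQ j).2.regK⟩)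
    (fun p => (π p).rep) h.hπ.regV hC1 {p | ¬ On E p} h.stabU (northcottX h.hinv) Γ hΓ hidx T hTE hTinf hT J hJ m hm
    h0 hTJ

theorem Setting.finOrb (h : Setting I E π P Q) :
    {p : RatPt I | ¬ On E p ∧ (MulAction.orbit (grp P Q) p).Finite}.Finite := by
  obtain ⟨C1, hC1⟩ := hrelX h.hI _ _ h.hPQ
  exact forbU (fun p => logHeight (π p).rep) {p | ¬ On E p} (northcottX h.hinv) h.hrs P Q h.stabU C1 hC1

/-- all places, necessary condition -/
theorem Setting.all_places (h : Setting I E π P Q) {L : Type} [NormedField L] (σ : K →+* L)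
    (hF : {J : Ideal (Poly K n) | ∃ x : Fin (n + 1) → L, x ≠ 0 ∧ J = localIdeal I σ x}.Finite)
    (p : RatPt I) (hpE : ¬ On E p) (hpinf : ¬ (MulAction.orbit (grp P Q) p).Finite) :
    DimTwo (localIdeal I σ (fun i => σ (vec p i))) := by
  classical
  have hI := h.hI
  have hreg := h.reg
  set Γ0 : Subgroup (Equiv.Perm (RatPt I)) := grp P Q with hΓ0
  rintro ⟨m, hm1, hm0⟩
  set f : Equiv.Perm (RatPt I) → Ideal (Poly K n) := fun γ => localIdeal I σ (fun i => σ (vec (γ p) i)) with hf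
  have hact : ∀ φ ∈ Γ0, ∀ a b : RatPt I,
      localIdeal I σ (fun i => σ (vec a i)) = localIdeal I σ (fun i => σ (vec b i)) →
      localIdeal I σ (fun i => σ (vec (φ a) i)) = localIdeal I σ (fun i => σ (vec (φ b) i)) := by
    intro φ hφ a b hab
    ext g
    rw [mem_loc hI, mem_loc hI]
    refine ACT.t K n I φ (hreg φ hφ).1 (hreg φ hφ).2 L σ a b (fun g => ?_) g
    rw [← mem_loc hI, ← mem_loc hI, hab]
  let Γ : Subgroup (Equiv.Perm (RatPt I)) :=
    { carrier := {γ | γ ∈ Γ0 ∧ f γ = f 1}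
      one_mem' := ⟨one_mem _, rfl⟩
      mul_mem' := by
        rintro a b ⟨ha, ha'⟩ ⟨hb, hb'⟩
        refine ⟨mul_mem ha hb, ?_⟩
        rw [← ha']
        exact hact a ha (b p) p hb'
      inv_mem' := by
        rintro a ⟨ha, ha'⟩
        refine ⟨inv_mem ha, ?_⟩
        have := hact a⁻¹ (inv_mem ha) (a p) p ha'
        rw [show a⁻¹ (a p) = p from a.symm_apply_apply p] at this
        exact this.symm }
  have hΓle : Γ ≤ Γ0 := fun γ hγ => hγ.1
  have hidx : Γ.relIndex Γ0 ≠ 0 := by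
    set H : Subgroup Γ0 := Γ.subgroupOf Γ0 with hH
    have hfr : (Set.range fun γ : Γ0 => f γ).Finite := by
      refine hF.subset ?_
      rintro _ ⟨γ, rfl⟩
      refine ⟨fun i => σ (vec ((γ : Equiv.Perm (RatPt I)) p) i), ?_, rfl⟩
      intro h0
      apply vec_ne ((γ : Equiv.Perm (RatPt I)) p)
      funext i
      exact (map_eq_zero σ).1 (congrFun h0 i)
    haveI := hfr.to_subtype
    have hfin : Finite (Γ0 ⧸ H) := by
      refine Finite.of_injective (fun c : Γ0 ⧸ H => (⟨f c.out, c.out, rfl⟩ : Set.range fun γ : Γ0 => f γ)) ?_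
      intro c c' h
      have h1 : f (c.out : Γ0) = f (c'.out : Γ0) := congrArg Subtype.val h
      rw [← QuotientGroup.out_eq' c, ← QuotientGroup.out_eq' c']
      rw [QuotientGroup.eq]
      rw [Subgroup.mem_subgroupOf]
      have h2 : (((c.out : Γ0)⁻¹ * (c'.out : Γ0) : Γ0) : Equiv.Perm (RatPt I)) =
        (c.out : Γ0).1⁻¹ * (c'.out : Γ0).1 := rfl
      refine ⟨((c.out : Γ0)⁻¹ * (c'.out : Γ0) : Γ0).2, ?_⟩
      have h3 := hact (c.out : Γ0).1⁻¹ (inv_mem (c.out : Γ0).2) _ _ h1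
      rw [show (c.out : Γ0).1⁻¹ ((c.out : Γ0).1 p) = p from (c.out : Γ0).1.symm_apply_apply p] at h3
      rw [h2]
      exact h3.symm
    have := Subgroup.finiteIndex_of_finite_quotient (H := H)
    exact this.index_ne_zero
  refine h.curve Γ hΓle hidx {y | ∃ γ ∈ Γ, y = γ p} ?_ (fun hfin => hpinf (orb_fin hΓle hidx hfin)) ?_ _
    (homog_loc hI σ _) m hm1 hm0 ?_
  · rintro _ ⟨γ, hγ, rfl⟩
    exact h.stabU γ (hΓle hγ) p hpE
  · rintro γ hγ _ ⟨γ', hγ', rfl⟩
    exact ⟨γ * γ', mul_mem hγ hγ', rfl⟩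
  · rintro _ ⟨γ, hγ, rfl⟩ g hg
    have h1 : g ∈ localIdeal I σ (fun i => σ (vec (γ p) i)) := by
      have : f γ = f 1 := hγ.2
      simp only [hf, Equiv.Perm.coe_one, id] at this
      rw [this]; exact hg
    rw [mem_loc hI] at h1
    obtain ⟨ε, hε, h⟩ := h1
    simpa using h (γ p) (MZ.near_self _ hε) 1 one_ne_zero

/-- good places -/
theorem Setting.good_places (h : Setting I E π P Q) :
    ∃ N : ℕ, N ≠ 0 ∧ ∀ (L : Type) [NontriviallyNormedField L] [IsUltrametricDist L] [ProperSpace L] (σ : K →+* L),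
      ‖(N : L)‖ = 1 → ∀ x : Fin (n + 1) → L, x ≠ 0 →
        localIdeal I σ x = localIdeal E σ x ∨
        (∃ p : RatPt I, ¬ On E p ∧ (MulAction.orbit (grp P Q) p).Finite ∧
          (∃ c : L, c ≠ 0 ∧ x = fun i => c * σ (vec p i)) ∧ localIdeal I σ x = pointIdeal (vec p)) ∨
        DimTwo (localIdeal I σ x) := by
  classical
  have hI := h.hI
  have hP := h.hP
  have hQ := h.hQ
  have hstab := h.stabU
  have hcurve := h.curve
  set S : Set (Equiv.Perm (RatPt I)) := Set.range P ∪ Set.range Q with hS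
  set Γ0 : Subgroup (Equiv.Perm (RatPt I)) := grp P Q with hΓ0
  have hgood : ∀ g ∈ S, ∃ N : ℕ, N ≠ 0 ∧
      ∀ (L : Type) [NontriviallyNormedField L] [IsUltrametricDist L] (σ : K →+* L),
      ‖(N : L)‖ = 1 → GoodMap I σ g ∧ GoodMap I σ g.symm := by
    intro g hg
    have h1 : Regular I g ∧ Regular I g.symm := by
      rcases hg with ⟨i, rfl⟩ | ⟨j, rfl⟩
      · exact hP i
      · exact hQ j
    obtain ⟨N1, hN1, h2⟩ := GDM.t K n I hI g h1.1
    obtain ⟨N2, hN2, h3⟩ := GDM.t K n I hI g.symm h1.2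
    refine ⟨N1 * N2, mul_ne_zero hN1 hN2, ?_⟩
    intro L _ _ σ hL
    have hle : ∀ m : ℕ, ‖(m : L)‖ ≤ 1 := fun m => IsUltrametricDist.norm_natCast_le_one L m
    rw [Nat.cast_mul, norm_mul] at hL
    have a1 : ‖(N1 : L)‖ = 1 := by
      refine le_antisymm (hle _) ?_
      by_contra hlt
      push Not at hlt
      have := mul_le_mul (le_refl ‖(N1 : L)‖) (hle N2) (norm_nonneg _) (norm_nonneg _)
      linarith
    have a2 : ‖(N2 : L)‖ = 1 := by
      rw [a1, one_mul] at hL; exact hL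
    exact ⟨h2 L σ a1, h3 L σ a2⟩
  choose! N hN0 hNg using hgood
  have hSfin : S.Finite := (Set.finite_range P).union (Set.finite_range Q)
  refine ⟨∏ g ∈ hSfin.toFinset, N g, ?_, ?_⟩
  · rw [Finset.prod_ne_zero_iff]
    intro g hg
    exact hN0 g ((Set.Finite.mem_toFinset hSfin).1 hg)
  · intro L _ _ _ σ hL x hx
    have hle : ∀ m : ℕ, ‖(m : L)‖ ≤ 1 := fun m => IsUltrametricDist.norm_natCast_le_one L m
    have hNL : ∀ g ∈ S, ‖(N g : L)‖ = 1 := by
      intro g hg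
      have hg' : g ∈ hSfin.toFinset := (Set.Finite.mem_toFinset hSfin).2 hg
      rw [Nat.cast_prod, norm_prod, ← Finset.mul_prod_erase _ _ hg'] at hL
      refine le_antisymm (hle _) ?_
      by_contra hlt
      push Not at hlt
      have h1 : ∏ b ∈ hSfin.toFinset.erase g, ‖(N b : L)‖ ≤ 1 :=
        Finset.prod_le_one (fun _ _ => norm_nonneg _) fun b _ => hle _
      have := mul_le_mul (le_refl ‖(N g : L)‖) h1 (Finset.prod_nonneg fun _ _ => norm_nonneg _) (norm_nonneg _)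
      linarith
    by_cases hd : DimTwo (localIdeal I σ x)
    · exact Or.inr (Or.inr hd)
    unfold DimTwo at hd
    push Not at hd
    obtain ⟨m, hm1, hm0⟩ := hd
    obtain ⟨ε, hε, hvan⟩ := loc_unif hI σ x
    have hrec := fun (η : ℝ) (hη : 0 < η) => REC.t K n I hI L σ S (fun g hg => hNg g hg L σ (hNL g hg)) x hx η hη
    obtain ⟨δ, Γ, hδ, hδε, hΓ, hidx, hst⟩ := hrec ε hε
    have hfin : {w : RatPt I | Nr σ (vec w) x δ ∧ ¬ On E w}.Finite := by
      by_contra hinf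
      refine hcurve Γ hΓ hidx {w : RatPt I | Nr σ (vec w) x δ ∧ ¬ On E w} (fun p hp => hp.2) hinf
        (fun γ hγ y hy => ⟨hst γ hγ y hy.1, hstab γ (hΓ hγ) y hy.2⟩) _ (homog_loc hI σ x) m hm1 hm0
        fun w hw g hg => hvan w (nr_mono hw.1 hδε) g hg
    rcases dich hI h.hE h.hIE σ hx hfin (fun p hp => hp.2) hδ (fun w hw => by
      by_cases hw' : On E w
      · exact Or.inl hw'
      · exact Or.inr ⟨hw, hw'⟩) with h1 | ⟨p, hpT, hxp, hpt, η, hη, huniq⟩
    · exact Or.inl h1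
    · right; left
      refine ⟨p, hpT.2, ?_, hxp, hpt⟩
      obtain ⟨δ', Γ', hδ', hδη, hΓ', hidx', hst'⟩ := hrec η hη
      refine orb_fin hΓ' hidx' ((Set.finite_singleton p).subset ?_)
      rintro _ ⟨γ, hγ, rfl⟩
      refine huniq _ (nr_mono (hst' γ hγ p ?_) hδη)
      obtain ⟨c, hc, hxp⟩ := hxp
      refine ⟨c, hc, fun i => ?_⟩
      rw [hxp]; simpa using hδ'

/-- sufficient condition -/
theorem Setting.suff (h : Setting I E π P Q) {L : Type} [NormedField L] (σ : K →+* L)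
    (hFE : {J : Ideal (Poly K n) | ∃ x : Fin (n + 1) → L, x ≠ 0 ∧ J = localIdeal E σ x}.Finite)
    (hall : ∀ p : RatPt I, ¬ On E p → ¬ (MulAction.orbit (grp P Q) p).Finite →
      localIdeal I σ (fun i => σ (vec p i)) = I) :
    {J : Ideal (Poly K n) | ∃ x : Fin (n + 1) → L, x ≠ 0 ∧ J = localIdeal I σ x}.Finite := by
  classical
  have hT := h.finOrb
  have hI := h.hI
  refine Set.Finite.subset (s := ({I} ∪ {J | ∃ x : Fin (n + 1) → L, x ≠ 0 ∧ J = localIdeal E σ x}) ∪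
    (fun p : RatPt I => pointIdeal (vec p)) '' {p : RatPt I | ¬ On E p ∧ (MulAction.orbit (grp P Q) p).Finite}) ?_ ?_
  · exact ((Set.finite_singleton I).union hFE).union (hT.image _)
  rintro _ ⟨x, hx, rfl⟩
  by_cases hA : ∀ ε : ℝ, 0 < ε → ∃ p : RatPt I, Nr σ (vec p) x ε ∧ ¬ On E p ∧
      ¬ (MulAction.orbit (grp P Q) p).Finite
  · left; left
    refine le_antisymm ?_ (MZ.le_localIdeal I σ x)
    rintro g ⟨ε, hε, hg⟩
    obtain ⟨p, ⟨c, hc, hn⟩, hpE, hpinf⟩ := hA (ε / 2) (by linarith)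
    rw [← hall p hpE hpinf]
    have hcpos : 0 < ‖c‖ := norm_pos_iff.2 hc
    refine ⟨ε / 2 / ‖c‖, by positivity, ?_⟩
    rintro w hw ⟨e, he, hen⟩
    refine hg w hw ⟨c * e, mul_ne_zero hc he, fun i => ?_⟩
    have h1 : c * e * σ (w i) - x i = c * (e * σ (w i) - σ (vec p i)) + (c * σ (vec p i) - x i) := by ring
    rw [h1]
    refine (norm_add_le _ _).trans_lt ?_
    rw [norm_mul]
    have h2 : ‖c‖ * ‖e * σ (w i) - σ (vec p i)‖ < ε / 2 := by
      have := mul_lt_mul_of_pos_left (hen i) hcpos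
      rwa [mul_div_cancel₀ _ hcpos.ne'] at this
    linarith [hn i]
  · push Not at hA
    obtain ⟨δ, hδ, hA⟩ := hA
    rcases dich hI h.hE h.hIE σ hx hT (fun p hp => hp.1) hδ (fun w hw => by
      by_cases hw' : On E w
      · exact Or.inl hw'
      · exact Or.inr ⟨hw', hA w hw hw'⟩) with h1 | ⟨p, hpT, -, hpt, -⟩
    · left; right; exact ⟨x, hx, h1⟩
    · right; exact ⟨p, hpT, hpt.symm⟩

end B

end Pool.Agent.H55.MX
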