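import Pool.Agent.H55.MX.Tend

/-!
# Project MX: the theorem at recurrent points
-/

set_option autoImplicit false

open MvPolynomial Filter Topology
open scoped LinearAlgebra.Projectivization

namespace Pool.Agent.H55.MX

open Pool.Agent.H55.MZ (Poly NoZero Homog Pt Par eval_smul_hom eval_bind eval_smul_sum Near localIdeal pointIdeal)
open Pool.Agent.H55.MG

section F

variable {K : Type} [Field K] [NumberField K] {n N : ℕ} {I E : Ideal (Poly K n)}
  {π : RatPt I → ℙ K (Fin (N + 1) → K)} {r s : ℕ} {P : Fin r → Equiv.Perm (RatPt I)}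
  {Q : Fin s → Equiv.Perm (RatPt I)}

lemma Setting.aut (h : Setting I E π P Q) : ∀ γ ∈ Set.range P ∪ Set.range Q, IsAut I γ := by
  rintro g (⟨i, rfl⟩ | ⟨j, rfl⟩)
  · exact h.hP i
  · exact h.hQ j

/-- the trichotomy for periodic local closures -/
theorem Setting.trich (h : Setting I E π P Q) {L : Type} [NormedField L] (σ : K →+* L) {x : Fin (n + 1) → L}
    (hx : x ≠ 0) (hper : Periodic (grp P Q) (localIdeal I σ x)) :
    localIdeal I σ x = localIdeal E σ x ∨
    (∃ p : RatPt I, ¬ On E p ∧ (MulAction.orbit (grp P Q) p).Finite ∧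
      (∃ c : L, c ≠ 0 ∧ x = fun i => c * σ (vec p i)) ∧ localIdeal I σ x = pointIdeal (vec p)) ∨
    (DimTwo (localIdeal I σ x) ∧ Periodic (grp P Q) (localIdeal I σ x)) := by
  classical
  have hI := h.hI
  by_cases hd : DimTwo (localIdeal I σ x)
  · exact Or.inr (Or.inr ⟨hd, hper⟩)
  unfold DimTwo at hd
  push Not at hd
  obtain ⟨m, hm1, hm0⟩ := hd
  obtain ⟨Γ, hΓ, hidx, hst⟩ := hper
  set T : Set (RatPt I) := {w | On (localIdeal I σ x) w ∧ ¬ On E w} with hTdef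
  have hTst : ∀ γ ∈ Γ, ∀ y ∈ T, γ y ∈ T := fun γ hγ y hy => ⟨(hst γ hγ y).2 hy.1, h.stabU γ (hΓ hγ) y hy.2⟩
  have hT : T.Finite := by
    by_contra hinf
    exact h.curve Γ hΓ hidx T (fun p hp => hp.2) hinf hTst _ (homog_loc hI σ x) m hm1 hm0 fun w hw g hg => hw.1 g hg
  obtain ⟨ε, hε, hv⟩ := loc_unif hI σ x
  rcases dich hI h.hE h.hIE σ hx hT (fun p hp => hp.2) hε (fun w hw => by
    by_cases hw' : On E w
    · exact Or.inl hw'
    · exact Or.inr ⟨hv w hw, hw'⟩) with h1 | ⟨p, hpT, hxp, hpt, -⟩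
  · exact Or.inl h1
  · right; left
    refine ⟨p, hpT.2, ?_, hxp, hpt⟩
    refine orb_fin hΓ hidx (hT.subset ?_)
    rintro _ ⟨γ, hγ, rfl⟩
    exact hTst γ hγ p hpT

/-- recurrent points, or finitely many local closures -/
theorem Setting.periodic (h : Setting I E π P Q) {L : Type} [NormedField L] (σ : K →+* L) {x : Fin (n + 1) → L}
    (hx : x ≠ 0) (hrec : Recurrent (grp P Q) σ x ∨
      {J : Ideal (Poly K n) | ∃ x : Fin (n + 1) → L, x ≠ 0 ∧ J = localIdeal I σ x}.Finite) :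
    Periodic (grp P Q) (localIdeal I σ x) := by
  rcases hrec with hrec | hF
  · exact recurrent_periodic h.hI (grp P Q) h.reg σ x hrec
  · exact finMany_periodic h.hI σ hF _ h.aut x hx

/-- the finite family -/
theorem Setting.family (h : Setting I E π P Q) {𝓔 : Set (Ideal (Poly K n))} (hE : 𝓔.Finite)
    (hP : {J : Ideal (Poly K n) | Homog J ∧ IsVan I J ∧ DimTwo J ∧ Periodic (grp P Q) J}.Finite) :
    ∃ 𝓕 : Set (Ideal (Poly K n)), 𝓕.Finite ∧ ∀ (L : Type) [NormedField L] (σ : K →+* L) (x : Fin (n + 1) → L),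
      x ≠ 0 → Periodic (grp P Q) (localIdeal I σ x) → localIdeal E σ x ∈ 𝓔 → localIdeal I σ x ∈ 𝓕 := by
  refine ⟨({J : Ideal (Poly K n) | Homog J ∧ IsVan I J ∧ DimTwo J ∧ Periodic (grp P Q) J} ∪ 𝓔) ∪
    (fun p : RatPt I => pointIdeal (vec p)) '' {p : RatPt I | ¬ On E p ∧ (MulAction.orbit (grp P Q) p).Finite},
    (hP.union hE).union (h.finOrb.image _), fun L _ σ x hx hper hEx => ?_⟩
  rcases h.trich σ hx hper with h1 | ⟨p, hpE, hp, -, h2⟩ | ⟨h1, h2⟩
  · exact Or.inl (Or.inr (h1 ▸ hEx))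
  · exact Or.inr ⟨p, ⟨hpE, hp⟩, h2.symm⟩
  · exact Or.inl (Or.inl ⟨homog_loc h.hI σ x, isVan_loc h.hI σ x, h1, h2⟩)

/-- a surface has only one closed subset of dimension two -/
theorem surf_per (hI : Homog I) (hs : IsSurface I) (Γ : Subgroup (Equiv.Perm (RatPt I))) :
    {J : Ideal (Poly K n) | Homog J ∧ IsVan I J ∧ DimTwo J ∧ Periodic Γ J}.Finite := by
  refine (Set.finite_singleton I).subset ?_
  rintro J ⟨h1, h2, h3, -⟩
  exact dimTwo_eq MZ.NORM.t hI hs h1 (h2.le hI) h3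

end F

end Pool.Agent.H55.MX
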