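import Pool.Agent.H55.MX.Def
import Pool.Agent.H55.MG.ALGD
import Pool.Agent.H55.MG.IRRF

/-!
Project MX: on an irreducible set of points of a curve two functions satisfy an irreducible equation
of bounded degree in the second variable (after helper46's IRRF).
-/

set_option autoImplicit false

open MvPolynomial Filter Topology Height

namespace Pool.Agent.H55.MX.IRR

open Pool.Agent.H55.MZ (Poly NoZero Homog Pt Par eval_smul_hom)
open Pool.Agent.H55.MG
open Pool.Agent.H55.MG.IRRF (closed_of_hom bih bih_eval eval_bih bih_hom)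

variable {K : Type} [Field K] {n N : ℕ}

/-- The zero set of `G` on `X`. -/
def ZG (I : Ideal (Poly K n)) (m : Fin 2 → Poly K n) (m' : Fin 2 → Poly K N) (ψ : RatPt I → Fin (N + 1) → K) (G : Polynomial (Polynomial K)) :
    Set (RatPt I) :=
  {p | eval (vec p) (m 0) = 0 ∨ eval (ψ p) (m' 0) = 0 ∨
    G.evalEval (eval (vec p) (m 1) / eval (vec p) (m 0)) (eval (ψ p) (m' 1) / eval (ψ p) (m' 0)) = 0}

/-- The value of a linear form at `A β (p)`. -/
lemma val {I : Ideal (Poly K n)} {ψ : RatPt I → Fin (N + 1) → K} {p : RatPt I} {f : Fin (N + 1) → Poly K n} {c : K}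
    (hc : ∀ i, eval (vec p) (f i) = c * ψ p i) {g : Poly K N} (hg : g.IsHomogeneous 1) :
    eval (vec p) (bind₁ f g) = c * eval (ψ p) g := by
  rw [eval_bindG]
  have : (fun i => eval (vec p) (f i)) = c • ψ p := by
    funext i
    rw [hc i]
    rfl
  rw [this, eval_smul_hom hg, pow_one]

lemma ZG_closed (I : Ideal (Poly K n)) (m : Fin 2 → Poly K n) (m' : Fin 2 → Poly K N) (hm : ∀ i, (m i).IsHomogeneous 1)
    (hm' : ∀ i, (m' i).IsHomogeneous 1) (ψ : RatPt I → Fin (N + 1) → K) {k : ℕ} {e : Fin k → ℕ}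
    {A : Fin k → Fin (N + 1) → Poly K n} (hA : ∀ α i, (A α i).IsHomogeneous (e α))
    (hAψ : ∀ (p : RatPt I) (α : Fin k), ∃ c : K, ∀ i, eval (vec p) (A α i) = c * ψ p i)
    (hA0 : ∀ p : RatPt I, ∃ α i, eval (vec p) (A α i) ≠ 0) (G : Polynomial (Polynomial K)) :
    ZClosed I (ZG I m m' ψ G) := by
  classical
  set b := G.natDegree with hb
  obtain ⟨a, ha⟩ : ∃ a, ∀ j, (G.coeff j).natDegree ≤ a := by
    refine ⟨(Finset.range (b + 1)).sup fun j => (G.coeff j).natDegree, fun j => ?_⟩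
    by_cases hj : j ≤ b
    · exact Finset.le_sup (f := fun j => (G.coeff j).natDegree) (Finset.mem_range.2 (Nat.lt_succ_iff.2 hj))
    · rw [Polynomial.coeff_eq_zero_of_natDegree_lt (by omega)]
      simp
  let v : Fin k → Fin 2 → Poly K n := fun β i => bind₁ (A β) (m' i)
  have hv : ∀ β i, (v β i).IsHomogeneous (e β) := by
    intro β i
    have := (hm' i).aeval (A β) (hA β)
    rw [mul_one] at this
    exact this
  let H : Fin k → Poly K n := fun β => m 0 * v β 0 * bih G a b (m 0) (m 1) (v β 0) (v β 1)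
  have hH : ∀ β, (H β).IsHomogeneous (1 + e β + (1 * a + e β * b)) := fun β =>
    ((hm 0).mul (hv β 0)).mul (bih_hom G a b (hm 0) (hm 1) (hv β 0) (hv β 1))
  have key : ZG I m m' ψ G = {p | ∀ g ∈ Set.range H, eval (vec p) g = 0} := by
    ext p
    simp only [Set.mem_ofPred_eq, Set.forall_mem_range, ZG]
    have hHe : ∀ β (c : K), (∀ i, eval (vec p) (A β i) = c * ψ p i) → eval (vec p) (H β)
        = eval (vec p) (m 0) * (c * eval (ψ p) (m' 0)) * bih G a b (eval (vec p) (m 0)) (eval (vec p) (m 1))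
          (c * eval (ψ p) (m' 0)) (c * eval (ψ p) (m' 1)) := by
      intro β c hc
      rw [map_mul, map_mul, eval_bih, val hc (hm' 0), val hc (hm' 1)]
    constructor
    · intro h β
      obtain ⟨c, hc⟩ := hAψ p β
      rw [hHe β c hc]
      by_cases h1 : eval (vec p) (m 0) = 0
      · rw [h1, zero_mul, zero_mul]
      by_cases h2 : eval (ψ p) (m' 0) = 0
      · rw [h2, mul_zero, mul_zero, zero_mul]
      by_cases h3 : c = 0
      · rw [h3, zero_mul, mul_zero, zero_mul]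
      rw [bih_eval G a b le_rfl ha h1 (mul_ne_zero h3 h2), mul_div_mul_left _ _ h3]
      rw [(h.resolve_left h1).resolve_left h2, mul_zero, mul_zero]
    · intro h
      obtain ⟨β, i, hβ⟩ := hA0 p
      obtain ⟨c, hc⟩ := hAψ p β
      have hc0 : c ≠ 0 := by
        rintro rfl
        apply hβ
        rw [hc i, zero_mul]
      by_cases h1 : eval (vec p) (m 0) = 0
      · exact Or.inl h1
      by_cases h2 : eval (ψ p) (m' 0) = 0
      · exact Or.inr (Or.inl h2)
      have h3 := h β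
      rw [hHe β c hc, bih_eval G a b le_rfl ha h1 (mul_ne_zero hc0 h2), mul_div_mul_left _ _ hc0] at h3
      refine Or.inr (Or.inr ?_)
      have h4 : c * eval (ψ p) (m' 0) ≠ 0 := mul_ne_zero hc0 h2
      rcases mul_eq_zero.1 h3 with h5 | h5
      · exact absurd h5 (mul_ne_zero h1 h4)
      · exact (mul_eq_zero.1 h5).resolve_left (mul_ne_zero (pow_ne_zero _ h1) (pow_ne_zero _ h4))
  rw [key]
  exact closed_of_hom I _ fun g ⟨β, hβ⟩ => ⟨_, hβ ▸ hH β⟩

lemma factor (I : Ideal (Poly K n)) (m : Fin 2 → Poly K n) (m' : Fin 2 → Poly K N) (ψ : RatPt I → Fin (N + 1) → K)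
    (hcl : ∀ G, ZClosed I (ZG I m m' ψ G)) (C : Set (RatPt I)) (hC : ZIrred I C) (p₀ : RatPt I) (hp₀ : p₀ ∈ C)
    (h0 : eval (vec p₀) (m 0) ≠ 0) (h0' : eval (ψ p₀) (m' 0) ≠ 0) (F : Polynomial (Polynomial K)) (hF : F ≠ 0)
    (hCF : C ⊆ ZG I m m' ψ F) : ∃ G, Irreducible G ∧ G ∣ F ∧ C ⊆ ZG I m m' ψ G := by
  induction F using WfDvdMonoid.induction_on_irreducible with
  | zero => exact absurd rfl hF
  | unit u hu =>
    exfalso
    have h1 := (hCF hp₀).resolve_left h0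
    have h2 := h1.resolve_left h0'
    have h3 : IsUnit (u.evalEval (eval (vec p₀) (m 1) / eval (vec p₀) (m 0))
      (eval (ψ p₀) (m' 1) / eval (ψ p₀) (m' 0))) := by
      rw [← Polynomial.coe_evalEvalRingHom]
      exact hu.map _
    rw [h2] at h3
    exact not_isUnit_zero h3
  | mul a i ha hi ih =>
    have h1 : C ⊆ ZG I m m' ψ i ∪ ZG I m m' ψ a := by
      intro p hp
      have h2 := hCF hp
      simp only [ZG, Set.mem_ofPred_eq, Polynomial.evalEval_mul, mul_eq_zero] at h2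
      simp only [ZG, Set.mem_union, Set.mem_ofPred_eq]
      tauto
    rcases hC.2 _ _ (hcl i) (hcl a) h1 with h2 | h2
    · exact ⟨i, hi, dvd_mul_right _ _, h2⟩
    · obtain ⟨G, hG, hGa, hGC⟩ := ih ha h2
      exact ⟨G, hG, hGa.mul_left _, hGC⟩

theorem t (K : Type) [Field K] [Infinite K] (n : ℕ) (J : Ideal (Poly K n)) (hJ : Homog J)
    (m : Fin 2 → Poly K n) (hm : ∀ i, (m i).IsHomogeneous 1) (hJm : NoZero J m) : ∃ D : ℕ,
    ∀ (N : ℕ) (I : Ideal (Poly K n)) (C : Set (RatPt I)) (_ : ZIrred I C)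
      (_ : ∀ p ∈ C, ∀ g ∈ J, eval (vec p) g = 0)
      (ψ : RatPt I → Fin (N + 1) → K) (_ : RegV I ψ) (m' : Fin 2 → Poly K N) (_ : ∀ i, (m' i).IsHomogeneous 1)
      (_ : ∃ p ∈ C, eval (vec p) (m 0) ≠ 0 ∧ eval (ψ p) (m' 0) ≠ 0),
      ∃ F : Polynomial (Polynomial K), Irreducible F ∧ F.natDegree ≤ D ∧ ∀ p ∈ C, eval (vec p) (m 0) ≠ 0 →
        eval (ψ p) (m' 0) ≠ 0 →
        F.evalEval (eval (vec p) (m 1) / eval (vec p) (m 0)) (eval (ψ p) (m' 1) / eval (ψ p) (m' 0)) = 0 := by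
  obtain ⟨D, hD⟩ := ALGD.t K n J hJ m hm hJm
  refine ⟨D, ?_⟩
  intro N I C hC hCJ ψ hψ m' hm' hp
  obtain ⟨p₀, hp₀, h0, h0'⟩ := hp
  obtain ⟨k, e, A, hA, hAψ, hA0⟩ := hψ
  obtain ⟨α, i₀, hα⟩ := hA0 p₀
  have hΨ : ∀ i, (bind₁ (A α) (m' i)).IsHomogeneous (e α) := by
    intro i
    have := (hm' i).aeval (A α) (hA α)
    rw [mul_one] at this
    exact this
  obtain ⟨F, hF0, hFD, hF⟩ := hD (e α) (fun i => bind₁ (A α) (m' i)) hΨ
  have hcl := fun G => ZG_closed I m m' hm hm' ψ hA hAψ hA0 G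
  have hCF : C ⊆ ZG I m m' ψ F := by
    have hW := closed_of_hom I (Set.range (A α)) (by
      rintro _ ⟨i, rfl⟩
      exact ⟨_, hA α i⟩)
    have hsub : C ⊆ ZG I m m' ψ F ∪ {p | ∀ g ∈ Set.range (A α), eval (vec p) g = 0} := by
      intro p hp
      by_cases h1 : ∀ g ∈ Set.range (A α), eval (vec p) g = 0
      · exact Or.inr h1
      left
      by_cases h2 : eval (vec p) (m 0) = 0
      · exact Or.inl h2
      by_cases h3 : eval (ψ p) (m' 0) = 0
      · exact Or.inr (Or.inl h3)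
      refine Or.inr (Or.inr ?_)
      obtain ⟨c, hc⟩ := hAψ p α
      have hc0 : c ≠ 0 := by
        rintro rfl
        apply h1
        rintro _ ⟨i, rfl⟩
        rw [hc i, zero_mul]
      have h4 := hF (vec p) (hCJ p hp) h2 (by
        rw [val hc (hm' 0)]
        exact mul_ne_zero hc0 h3)
      rwa [val hc (hm' 0), val hc (hm' 1), mul_div_mul_left _ _ hc0] at h4
    rcases hC.2 _ _ (hcl F) hW hsub with h | h
    · exact h
    · exact absurd (h hp₀ _ ⟨i₀, rfl⟩) hα
  obtain ⟨G, hG, hGF, hGC⟩ := factor I m m' ψ hcl C hC p₀ hp₀ h0 h0' F hF0 hCF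
  refine ⟨G, hG, (Polynomial.natDegree_le_of_dvd hGF hF0).trans hFD, ?_⟩
  intro p hp h1 h2
  exact ((hGC hp).resolve_left h1).resolve_left h2

end Pool.Agent.H55.MX.IRR
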