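import Pool.Agent.H55.MX.Rat

/-!
# Project MX: recurrent points and periodic local closures
-/

set_option autoImplicit false

open MvPolynomial Filter Topology
open scoped LinearAlgebra.Projectivization

namespace Pool.Agent.H55.MX

open Pool.Agent.H55.MZ (Poly NoZero Homog Pt Par eval_smul_hom eval_bind eval_smul_sum Near localIdeal pointIdeal)
open Pool.Agent.H55.MG

section P

variable {K : Type} [Field K] {n : ℕ} {I : Ideal (Poly K n)}

/-- The set of the `K`-points of `X` on the variety of `J` is stable under a subgroup of finite index of `Γ`. -/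
def Periodic (Γ : Subgroup (Equiv.Perm (RatPt I))) (J : Ideal (Poly K n)) : Prop :=
  ∃ Γ' : Subgroup (Equiv.Perm (RatPt I)), Γ' ≤ Γ ∧ Γ'.relIndex Γ ≠ 0 ∧ ∀ γ ∈ Γ', ∀ p, On J (γ p) ↔ On J p

/-- The point `x` over `L` is recurrent under `Γ`: for each neighbourhood of `x` a subgroup of finite index of `Γ` is
generated by the `γ` which map `x` into this neighbourhood (this is expressed by `K`-points near `x`). -/
def Recurrent (Γ : Subgroup (Equiv.Perm (RatPt I))) {L : Type} [NormedField L] (σ : K →+* L)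
    (x : Fin (n + 1) → L) : Prop :=
  ∀ ε : ℝ, 0 < ε → (Subgroup.closure {γ : Equiv.Perm (RatPt I) | γ ∈ Γ ∧
    ∃ δ : ℝ, 0 < δ ∧ ∀ w : RatPt I, Nr σ (vec w) x δ → Nr σ (vec (γ w)) x ε}).relIndex Γ ≠ 0

lemma zclosed_on {J : Ideal (Poly K n)} (hJ : Homog J) : ZClosed I {p : RatPt I | On J p} := by
  refine ⟨J, ?_⟩
  ext p
  constructor
  · intro h g hg c hc
    exact (Pt.smul hJ ⟨vec_ne p, h⟩ hc).2 g hg
  · intro h g hg
    simpa using h g hg 1 one_ne_zero

/-- the local closure is the smallest closed set which contains all near points -/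
lemma loc_min (hI : Homog I) {L : Type} [NormedField L] (σ : K →+* L) (x : Fin (n + 1) → L) [Infinite K]
    {W : Set (RatPt I)} (hW : ZClosed I W) {δ : ℝ} (hδ : 0 < δ) (h : ∀ w : RatPt I, Nr σ (vec w) x δ → w ∈ W) :
    ∀ p : RatPt I, On (localIdeal I σ x) p → p ∈ W := by
  obtain ⟨S, rfl⟩ := hW
  intro p hp g hg c hc
  have h1 : g ∈ localIdeal I σ x := by
    rw [mem_loc hI]
    exact ⟨δ, hδ, fun w hw => h w hw g hg⟩
  exact (Pt.smul (homog_loc hI σ x) ⟨vec_ne p, hp⟩ hc).2 g h1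

lemma stab_of_sub [Infinite K] {φ : Equiv.Perm (RatPt I)} (h' : ZCont I φ.symm) {Z : Set (RatPt I)}
    (hZ : ZClosed I Z) (hsub : ∀ p ∈ Z, φ p ∈ Z) : ∀ p, φ p ∈ Z ↔ p ∈ Z := by
  let _ := COMP.zar I
  have : TopologicalSpace.NoetherianSpace (RatPt I) :=
    (Topology.IsInducing.mk rfl :
      Topology.IsInducing (COMP.pnt : RatPt I → PrimeSpectrum (Poly K n))).noetherianSpace
  have hwf : WellFoundedLT (TopologicalSpace.Closeds (RatPt I)) := inferInstance
  have hcont : Continuous φ.symm := by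
    rw [continuous_iff_isClosed]
    intro Y hY
    exact (COMP.isClosed_iff' _).2 (h' Y ((COMP.isClosed_iff' Y).1 hY))
  have key : ∀ C : TopologicalSpace.Closeds (RatPt I), (∀ p ∈ C, φ p ∈ C) → ∀ p, φ p ∈ C → p ∈ C := by
    intro C
    refine hwf.induction (motive := fun C => (∀ p ∈ C, φ p ∈ C) → ∀ p, φ p ∈ C → p ∈ C) C ?_
    intro C ih hC p hp
    by_contra hpC
    let C' : TopologicalSpace.Closeds (RatPt I) := ⟨φ.symm ⁻¹' C, C.isClosed.preimage hcont⟩
    have hmem : ∀ q, q ∈ C' ↔ φ.symm q ∈ C := fun q => Iff.rfl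
    have hlt : C' < C := by
      refine lt_of_le_of_ne (fun q hq => ?_) fun he => ?_
      · have := hC _ ((hmem q).1 hq)
        rwa [Equiv.apply_symm_apply] at this
      · have h1 : φ p ∈ C' := he ▸ hp
        rw [hmem, Equiv.symm_apply_apply] at h1
        exact hpC h1
    have h1 := ih C' hlt (fun q hq => by
      rw [hmem, Equiv.symm_apply_apply]
      have := hC _ ((hmem q).1 hq)
      rwa [Equiv.apply_symm_apply] at this) (φ p) (by
      rw [hmem, Equiv.symm_apply_apply]; exact hp)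
    rw [hmem, Equiv.symm_apply_apply] at h1
    exact hpC h1
  intro p
  exact ⟨fun h => key ⟨Z, (COMP.isClosed_iff' Z).2 hZ⟩ hsub p h, fun h => hsub p h⟩

/-- the local closure at a recurrent point is periodic -/
theorem recurrent_periodic [Infinite K] (hI : Homog I) (Γ : Subgroup (Equiv.Perm (RatPt I)))
    (hreg : ∀ γ ∈ Γ, RegK I γ ∧ RegK I γ.symm) {L : Type} [NormedField L] (σ : K →+* L) (x : Fin (n + 1) → L)
    (hx : Recurrent Γ σ x) : Periodic Γ (localIdeal I σ x) := by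
  obtain ⟨ε, hε, hv⟩ := loc_unif hI σ x
  have hJ : Homog (localIdeal I σ x) := homog_loc hI σ x
  let Γ' : Subgroup (Equiv.Perm (RatPt I)) :=
    { carrier := {γ | γ ∈ Γ ∧ ∀ p, On (localIdeal I σ x) (γ p) ↔ On (localIdeal I σ x) p}
      one_mem' := ⟨one_mem _, fun p => Iff.rfl⟩
      mul_mem' := by
        rintro a b ⟨ha, ha'⟩ ⟨hb, hb'⟩
        exact ⟨mul_mem ha hb, fun p => by rw [Equiv.Perm.mul_apply, ha', hb']⟩
      inv_mem' := by
        rintro a ⟨ha, ha'⟩
        refine ⟨inv_mem ha, fun p => ?_⟩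
        rw [← ha' (a⁻¹ p)]
        rw [show a (a⁻¹ p) = p from a.apply_symm_apply p] }
  refine ⟨Γ', fun γ hγ => hγ.1, ?_, fun γ hγ => hγ.2⟩
  have hle : Subgroup.closure {γ : Equiv.Perm (RatPt I) | γ ∈ Γ ∧
      ∃ δ : ℝ, 0 < δ ∧ ∀ w : RatPt I, Nr σ (vec w) x δ → Nr σ (vec (γ w)) x ε} ≤ Γ' := by
    rw [Subgroup.closure_le]
    rintro γ ⟨hγ, δ, hδ, h⟩
    refine ⟨hγ, ?_⟩
    have hW : ZClosed I (γ ⁻¹' {p : RatPt I | On (localIdeal I σ x) p}) :=
      ZCR.t K n I γ (hreg γ hγ).1 _ (zclosed_on hJ)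
    have hsub := loc_min hI σ x hW hδ (fun w hw g hg => hv _ (h w hw) g hg)
    exact stab_of_sub (ZCR.t K n I γ.symm (hreg γ hγ).2) (zclosed_on hJ) hsub
  exact fun h0 => hx ε hε (Nat.eq_zero_of_zero_dvd (h0 ▸ Subgroup.relIndex_dvd_of_le_left Γ hle))

/-- at almost all places each point is recurrent -/
theorem good_recurrent [NumberField K] (hI : Homog I) {S : Set (Equiv.Perm (RatPt I))} (hSfin : S.Finite)
    (hS : ∀ g ∈ S, IsAut I g) :
    ∃ N : ℕ, N ≠ 0 ∧ ∀ (L : Type) [NontriviallyNormedField L] [IsUltrametricDist L] [ProperSpace L] (σ : K →+* L),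
      ‖(N : L)‖ = 1 → ∀ x : Fin (n + 1) → L, x ≠ 0 → Recurrent (Subgroup.closure S) σ x := by
  classical
  have hgood : ∀ g ∈ S, ∃ N : ℕ, N ≠ 0 ∧
      ∀ (L : Type) [NontriviallyNormedField L] [IsUltrametricDist L] (σ : K →+* L),
      ‖(N : L)‖ = 1 → GoodMap I σ g ∧ GoodMap I σ g.symm := by
    intro g hg
    have h1 := hS g hg
    obtain ⟨N1, hN1, h2⟩ := GDM.t K n I hI g h1.1
    obtain ⟨N2, hN2, h3⟩ := GDM.t K n I hI g.symm h1.2
    refine ⟨N1 * N2, mul_ne_zero hN1 hN2, ?_⟩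
    intro L _ _ σ hL
    have hle : ∀ m : ℕ, ‖(m : L)‖ ≤ 1 := fun m => IsUltrametricDist.norm_natCast_le_one L m
    rw [Nat.cast_mul, norm_mul] at hL
    have a1 : ‖(N1 : L)‖ = 1 := by
      refine le_antisymm (hle _) ?_
      by_contra hlt
      push Not at hlt
      have := mul_le_mul (le_refl ‖(N1 : L)‖) (hle N2) (norm_nonneg _) (norm_nonneg _)
      linarith
    have a2 : ‖(N2 : L)‖ = 1 := by
      rw [a1, one_mul] at hL; exact hL
    exact ⟨h2 L σ a1, h3 L σ a2⟩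
  choose! N hN0 hNg using hgood
  refine ⟨∏ g ∈ hSfin.toFinset, N g, ?_, ?_⟩
  · rw [Finset.prod_ne_zero_iff]
    intro g hg
    exact hN0 g ((Set.Finite.mem_toFinset hSfin).1 hg)
  · intro L _ _ _ σ hL x hx ε hε
    have hle : ∀ m : ℕ, ‖(m : L)‖ ≤ 1 := fun m => IsUltrametricDist.norm_natCast_le_one L m
    have hNL : ∀ g ∈ S, ‖(N g : L)‖ = 1 := by
      intro g hg
      have hg' : g ∈ hSfin.toFinset := (Set.Finite.mem_toFinset hSfin).2 hg
      rw [Nat.cast_prod, norm_prod, ← Finset.mul_prod_erase _ _ hg'] at hL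
      refine le_antisymm (hle _) ?_
      by_contra hlt
      push Not at hlt
      have h1 : ∏ b ∈ hSfin.toFinset.erase g, ‖(N b : L)‖ ≤ 1 :=
        Finset.prod_le_one (fun _ _ => norm_nonneg _) fun b _ => hle _
      have := mul_le_mul (le_refl ‖(N g : L)‖) h1 (Finset.prod_nonneg fun _ _ => norm_nonneg _) (norm_nonneg _)
      linarith
    obtain ⟨δ, Γ, hδ, hδε, hΓ, hidx, hst⟩ :=
      REC.t K n I hI L σ S (fun g hg => hNg g hg L σ (hNL g hg)) x hx ε hε
    have hle' : Γ ≤ Subgroup.closure {γ : Equiv.Perm (RatPt I) | γ ∈ Subgroup.closure S ∧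
        ∃ δ : ℝ, 0 < δ ∧ ∀ w : RatPt I, Nr σ (vec w) x δ → Nr σ (vec (γ w)) x ε} :=
      fun γ hγ => Subgroup.subset_closure ⟨hΓ hγ, δ, hδ, fun w hw => nr_mono (hst γ hγ w hw) hδε⟩
    exact fun h0 => hidx (Nat.eq_zero_of_zero_dvd (h0 ▸ Subgroup.relIndex_dvd_of_le_left _ hle'))

/-- transport of the local closures at `K`-points -/
lemma on_loc_map [Infinite K] (hI : Homog I) {φ : RatPt I → RatPt I} (hφ : RegK I φ) {L : Type} [NormedField L]
    (σ : K →+* L) (p q : RatPt I) (h : On (localIdeal I σ (fun i => σ (vec p i))) q) :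
    On (localIdeal I σ (fun i => σ (vec (φ p) i))) (φ q) := by
  obtain ⟨ε, hε, hv⟩ := loc_unif hI σ (fun i => σ (vec (φ p) i))
  obtain ⟨δ, hδ, hnear⟩ := ACT.near_map (σ := σ) hφ p hε
  have hW : ZClosed I (φ ⁻¹' {y : RatPt I | On (localIdeal I σ (fun i => σ (vec (φ p) i))) y}) :=
    ZCR.t K n I φ hφ _ (zclosed_on (homog_loc hI σ _))
  exact loc_min hI σ _ hW hδ (fun w hw g hg => hv _ (hnear w hw) g hg) q h

/-- `J` is the ideal of a set of `K`-points of `X`. -/
def IsVan (I J : Ideal (Poly K n)) : Prop :=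
  ∀ g, (∀ p : RatPt I, On J p → ∀ c : K, c ≠ 0 → eval (c • vec p) g = 0) → g ∈ J

lemma isVan_loc (hI : Homog I) {L : Type} [NormedField L] (σ : K →+* L) (x : Fin (n + 1) → L) :
    IsVan I (localIdeal I σ x) := by
  intro g hg
  obtain ⟨ε, hε, hv⟩ := loc_unif hI σ x
  rw [mem_loc hI]
  exact ⟨ε, hε, fun w hw c hc => hg w (hv w hw) c hc⟩

lemma IsVan.le (hI : Homog I) {J : Ideal (Poly K n)} (hJ : IsVan I J) : I ≤ J := fun g hg =>
  hJ g fun p _ _ hc => ((vec_pt p).smul hI hc).2 g hg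

end P

end Pool.Agent.H55.MX
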