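import Pool.Agent.H55.MX.Fin2

/-!
# Project MX: local closures of sets of points which are parametrized by polynomials
-/

set_option autoImplicit false

open MvPolynomial Filter Topology
open scoped LinearAlgebra.Projectivization

namespace Pool.Agent.H55.MX

open Pool.Agent.H55.MZ (Poly NoZero Homog Pt Par eval_smul_hom eval_bind eval_smul_sum Near localIdeal pointIdeal)
open Pool.Agent.H55.MG

section R

variable {K : Type} [Field K] {n : ℕ}

/-- The `K`-points of the variety of `E` are the values of finitely many polynomial maps `F j` from the affine space of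
some dimension `m`.  For example `E` may be the ideal of a finite union of points and of rational curves. -/
def Unirat (E : Ideal (Poly K n)) : Prop :=
  ∃ (k m : ℕ) (F : Fin k → Fin (n + 1) → MvPolynomial (Fin m) K), ∀ w : Fin (n + 1) → K,
    Pt E w ↔ w ≠ 0 ∧ ∃ (j : Fin k) (t : Fin m → K), Par (fun i => eval t (F j i)) w

lemma near_par {L : Type} [NormedField L] {σ : K →+* L} {v w : Fin (n + 1) → K} {x : Fin (n + 1) → L} {ε : ℝ}
    (hw : Near σ w x ε) (h : Par v w) : Near σ v x ε := by
  obtain ⟨c, hc, rfl⟩ := h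
  obtain ⟨d, hd, hn⟩ := hw
  refine ⟨d * σ c, mul_ne_zero hd ((map_ne_zero σ).2 hc), fun i => ?_⟩
  have := hn i
  simp only [Pi.smul_apply, smul_eq_mul, map_mul] at this
  rwa [mul_assoc]

/-- the local closures belong to a finite family which does not depend on the place -/
theorem unirat_unif {E : Ideal (Poly K n)} (hE : Unirat E) : ∃ 𝓕 : Set (Ideal (Poly K n)), 𝓕.Finite ∧
    ∀ (L : Type) [NormedField L] (σ : K →+* L), (∃ a : K, a ≠ 0 ∧ ‖σ a‖ < 1) →
      ∀ x : Fin (n + 1) → L, localIdeal E σ x ∈ 𝓕 := by
  classical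
  obtain ⟨k, m, F, hF⟩ := hE
  set G : Set (Fin k) → Set (Poly K n) := fun s => {g | ∀ j ∈ s, ∀ (t : Fin m → K) (c : K), c ≠ 0 →
    (fun i => eval t (F j i)) ≠ 0 → eval (fun i => c * eval t (F j i)) g = 0} with hG
  refine ⟨{J | (J : Set (Poly K n)) ∈ Set.range G}, ?_, ?_⟩
  · refine Set.Finite.of_finite_image (f := fun J : Ideal (Poly K n) => (J : Set (Poly K n)))
      ((Set.finite_range G).subset ?_) (fun J _ J' _ h => SetLike.coe_injective h)
    rintro _ ⟨J, hJ, rfl⟩
    exact hJ
  intro L _ σ ha
  obtain ⟨a, ha0, ha1⟩ := ha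
  set S : (Fin (n + 1) → L) → Set (Fin k) := fun x => {j | ∀ ε : ℝ, 0 < ε → ∃ t : Fin m → K,
    (fun i => eval t (F j i)) ≠ 0 ∧ Near σ (fun i => eval t (F j i)) x ε} with hS
  have key : ∀ x : Fin (n + 1) → L, ((localIdeal E σ x : Ideal (Poly K n)) : Set (Poly K n)) = G (S x) := by
    intro x
    ext g
    constructor
    · rintro ⟨ε, hε, hg⟩ j hj t c hc ht
      obtain ⟨t0, ht0, c0, hc0, hn0⟩ := hj ε hε
      -- the line
      set ℓ : MvPolynomial (Fin m) K →ₐ[K] Polynomial K :=
        aeval (fun i => Polynomial.C (t0 i) + Polynomial.X * Polynomial.C (t i - t0 i)) with hℓ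
      have hev : ∀ (b : K) (f : MvPolynomial (Fin m) K), (ℓ f).eval b = eval (fun i => t0 i + b * (t i - t0 i)) f := by
        intro b f
        have := congrArg (fun φ : MvPolynomial (Fin m) K →+* K => φ f)
          (show (Polynomial.evalRingHom b).comp ℓ.toRingHom = eval (fun i => t0 i + b * (t i - t0 i)) from ?_)
        · simpa using this
        · apply MvPolynomial.ringHom_ext
          · intro r; simp [hℓ]
          · intro i; simp [hℓ]
      set q : Polynomial K := aeval (fun i => Polynomial.C c * ℓ (F j i)) g with hq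
      have hqev : ∀ b : K, q.eval b = eval (fun i => c * eval (fun i => t0 i + b * (t i - t0 i)) (F j i)) g := by
        intro b
        have := congrArg (fun φ : Poly K n →+* K => φ g)
          (show (Polynomial.evalRingHom b).comp (aeval (fun i => Polynomial.C c * ℓ (F j i)) :
            Poly K n →ₐ[K] Polynomial K).toRingHom =
            eval (fun i => c * eval (fun i => t0 i + b * (t i - t0 i)) (F j i)) from ?_)
        · simpa using this
        · apply MvPolynomial.ringHom_ext
          · intro r; simp
          · intro i; simp [hev]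
      obtain ⟨i0, hi0⟩ : ∃ i, eval t0 (F j i) ≠ 0 := Function.ne_iff.1 ht0
      set r : Polynomial K := ℓ (F j i0) with hr
      have hr0 : r ≠ 0 := by
        intro h
        apply hi0
        have := hev 0 (F j i0)
        rw [← hr, h, Polynomial.eval_zero] at this
        simpa using this.symm
      have hlim : Tendsto (fun N : ℕ => σ (a ^ N)) atTop (𝓝 0) := by
        simp only [map_pow]
        exact tendsto_pow_atTop_nhds_zero_of_norm_lt_one ha1
      have hnear : ∀ᶠ N : ℕ in atTop, ∀ i, ‖c0 * σ ((ℓ (F j i)).eval (a ^ N)) - x i‖ < ε := by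
        rw [Filter.eventually_all]
        intro i
        have h1 : Tendsto (fun N : ℕ => ((ℓ (F j i)).map σ).eval (σ (a ^ N))) atTop
            (𝓝 (((ℓ (F j i)).map σ).eval 0)) :=
          (((ℓ (F j i)).map σ).continuous.tendsto 0).comp hlim
        have h2 : Tendsto (fun N : ℕ => ‖c0 * σ ((ℓ (F j i)).eval (a ^ N)) - x i‖) atTop
            (𝓝 ‖c0 * σ ((ℓ (F j i)).eval 0) - x i‖) := by
          have h3 : (fun N : ℕ => ‖c0 * σ ((ℓ (F j i)).eval (a ^ N)) - x i‖) =
              fun N : ℕ => ‖c0 * ((ℓ (F j i)).map σ).eval (σ (a ^ N)) - x i‖ := by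
            funext N
            rw [Polynomial.eval_map, Polynomial.eval₂_hom]
          have h4 : σ ((ℓ (F j i)).eval 0) = ((ℓ (F j i)).map σ).eval 0 := by
            rw [← map_zero σ, Polynomial.eval_map, Polynomial.eval₂_hom]
          rw [h3, h4]
          exact ((h1.const_mul c0).sub_const (x i)).norm
        have h5 : ‖c0 * σ ((ℓ (F j i)).eval 0) - x i‖ < ε := by
          rw [hev 0]
          simpa using hn0 i
        exact h2.eventually_lt_const h5
      obtain ⟨N0, hN0⟩ := eventually_atTop.1 hnear
      have hinj : Function.Injective (fun N : ℕ => a ^ N) := by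
        intro N M h
        have hlt : ‖σ a‖ < 1 := ha1
        have hpos : 0 < ‖σ a‖ := norm_pos_iff.2 ((map_ne_zero σ).2 ha0)
        have h' : ‖σ a‖ ^ N = ‖σ a‖ ^ M := by
          have := congrArg (fun z => ‖σ z‖) h
          simpa [map_pow, norm_pow] using this
        exact (pow_right_injective₀ hpos hlt.ne) h'
      have hroots : ∀ N, N0 ≤ N → (q * r).IsRoot (a ^ N) := by
        intro N hN
        rw [Polynomial.IsRoot, Polynomial.eval_mul]
        by_cases hr1 : r.eval (a ^ N) = 0
        · rw [hr1, mul_zero]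
        · rw [hqev]
          set w : Fin (n + 1) → K := fun i => c * eval (fun i => t0 i + a ^ N * (t i - t0 i)) (F j i) with hw
          have hpar : Par (fun i => eval (fun i => t0 i + a ^ N * (t i - t0 i)) (F j i)) w := ⟨c, hc, rfl⟩
          have hw0 : w ≠ 0 := by
            intro h0
            apply hr1
            have := congrFun h0 i0
            simp only [hw, Pi.zero_apply, mul_eq_zero, hc, false_or] at this
            rw [hr, hev]; exact this
          have hwE : Pt E w := (hF w).2 ⟨hw0, j, _, hpar⟩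
          have hwn : Near σ w x ε := by
            refine ⟨c0 * (σ c)⁻¹, mul_ne_zero hc0 (inv_ne_zero ((map_ne_zero σ).2 hc)), fun i => ?_⟩
            have h1 := hN0 N hN i
            rw [hev] at h1
            have h2 : c0 * (σ c)⁻¹ * σ (w i) = c0 * σ (eval (fun i => t0 i + a ^ N * (t i - t0 i)) (F j i)) := by
              have : σ c ≠ 0 := (map_ne_zero σ).2 hc
              simp only [hw, map_mul]
              field_simp
            rwa [h2]
          rw [hg w hwE hwn, zero_mul]
      have hqr : q * r = 0 := by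
        by_contra hne
        have hfin : {z | (q * r).IsRoot z}.Finite := (Polynomial.finite_setOfPred_isRoot hne)
        refine Set.infinite_of_injective_forall_mem (f := fun N : ℕ => a ^ (N + N0)) ?_ ?_ hfin
        · intro N M h
          have := hinj h
          omega
        · intro N
          exact hroots _ (Nat.le_add_left _ _)
      have hq0 : q = 0 := (mul_eq_zero.1 hqr).resolve_right hr0
      have := hqev 1
      rw [hq0, Polynomial.eval_zero] at this
      rw [show (fun i => c * eval t (F j i)) =
        fun i => c * eval (fun i => t0 i + 1 * (t i - t0 i)) (F j i) from ?_]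
      · exact this.symm
      · funext i; simp
    · intro hg
      have hex : ∀ j : Fin k, ∃ ε : ℝ, 0 < ε ∧ (j ∈ S x ∨ ∀ t : Fin m → K, (fun i => eval t (F j i)) ≠ 0 →
          ¬ Near σ (fun i => eval t (F j i)) x ε) := by
        intro j
        by_cases hj : j ∈ S x
        · exact ⟨1, one_pos, Or.inl hj⟩
        · simp only [hS, Set.mem_ofPred_eq] at hj
          push Not at hj
          obtain ⟨ε, hε, h⟩ := hj
          exact ⟨ε, hε, Or.inr h⟩
      choose e he he' using hex
      obtain ⟨ε, hε, hle⟩ : ∃ ε : ℝ, 0 < ε ∧ ∀ j, ε ≤ e j := by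
        by_cases hSe : (Finset.univ : Finset (Fin k)).Nonempty
        · obtain ⟨g0, hg0, hmin⟩ := Finset.exists_min_image Finset.univ e hSe
          exact ⟨e g0, he g0, fun g => hmin g (Finset.mem_univ _)⟩
        · rw [Finset.not_nonempty_iff_eq_empty] at hSe
          exact ⟨1, one_pos, fun g => absurd (Finset.mem_univ g) (by simp [hSe])⟩
      refine ⟨ε, hε, fun w hw hn => ?_⟩
      obtain ⟨hw0, j, t, hpar⟩ := (hF w).1 hw
      have ht : (fun i => eval t (F j i)) ≠ 0 := by
        obtain ⟨c, hc, rfl⟩ := hpar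
        intro h
        exact hw0 (by rw [h, smul_zero])
      rcases he' j with hj | hj
      · obtain ⟨c, hc, rfl⟩ := hpar
        exact hg j hj t c hc ht
      · obtain ⟨c, hc, hc'⟩ := near_par hn hpar
        exact absurd ⟨c, hc, fun i => (hc' i).trans_le (hle j)⟩ (hj t ht)
  exact fun x => ⟨S x, (key x).symm⟩

theorem unirat_finMany {E : Ideal (Poly K n)} (hE : Unirat E) {L : Type} [NormedField L] (σ : K →+* L)
    (ha : ∃ a : K, a ≠ 0 ∧ ‖σ a‖ < 1) :
    {J : Ideal (Poly K n) | ∃ x : Fin (n + 1) → L, x ≠ 0 ∧ J = localIdeal E σ x}.Finite := by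
  obtain ⟨𝓕, hfin, h⟩ := unirat_unif hE
  refine hfin.subset ?_
  rintro _ ⟨x, -, rfl⟩
  exact h L σ ha x

/-- a local field over `K` contains small elements of `K` -/
theorem exists_small {L : Type} [NormedField L] [IsUltrametricDist L] [ProperSpace L] [CharZero K] (σ : K →+* L) :
    ∃ a : K, a ≠ 0 ∧ ‖σ a‖ < 1 := by
  by_contra hcon
  push Not at hcon
  have hle : ∀ m : ℕ, ‖(m : L)‖ ≤ 1 := fun m => IsUltrametricDist.norm_natCast_le_one L m
  have h1 : ∀ m : ℕ, m ≠ 0 → 1 ≤ ‖(m : L)‖ := by
    intro m hm
    have := hcon (m : K) (Nat.cast_ne_zero.2 hm)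
    rwa [map_natCast] at this
  obtain ⟨y, -, φ, hφ, hlim⟩ := (isCompact_closedBall (0 : L) 1).tendsto_subseq (x := fun m : ℕ => (m : L))
    (fun m => by rw [mem_closedBall_zero_iff]; exact hle m)
  have hc := hlim.cauchySeq
  rw [Metric.cauchySeq_iff'] at hc
  obtain ⟨N, hN⟩ := hc 1 one_pos
  have h2 := hN (N + 1) (Nat.le_succ N)
  have h3 : φ N < φ (N + 1) := hφ (Nat.lt_succ_self N)
  simp only [Function.comp] at h2
  rw [dist_eq_norm, ← Nat.cast_sub h3.le] at h2
  have h4 := h1 (φ (N + 1) - φ N) (by omega)
  linarith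

end R

end Pool.Agent.H55.MX
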