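import Pool.Agent.H55.MX.Per

/-!
# Project MX: automorphisms and local closures at arbitrary points
-/

set_option autoImplicit false

open MvPolynomial Filter Topology
open scoped LinearAlgebra.Projectivization

namespace Pool.Agent.H55.MX

open Pool.Agent.H55.MZ (Poly NoZero Homog Pt Par eval_smul_hom eval_bind eval_smul_sum Near localIdeal pointIdeal)
open Pool.Agent.H55.MG
open Pool.Agent.H55.MG.ACT (eval_map_smul)

section T

variable {K : Type} [Field K] {n : ℕ} {I : Ideal (Poly K n)} {L : Type} [NormedField L] {σ : K →+* L}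

/-- `φ` maps the `K`-points near `x` to `K`-points near `y`. -/
def Tend (φ : RatPt I → RatPt I) (σ : K →+* L) (x y : Fin (n + 1) → L) : Prop :=
  ∀ ε : ℝ, 0 < ε → ∃ δ : ℝ, 0 < δ ∧ ∀ w : RatPt I, Nr σ (vec w) x δ → Nr σ (vec (φ w)) y ε

lemma tend_of_form {φ : RatPt I → RatPt I} {e : ℕ} {A : Fin (n + 1) → Poly K n} (hA : ∀ i, (A i).IsHomogeneous e)
    (hφ : ∀ p : RatPt I, ∃ c : K, ∀ i, eval (vec p) (A i) = c * vec (φ p) i) (x : Fin (n + 1) → L)
    {i0 : Fin (n + 1)} (h0 : eval x (map σ (A i0)) ≠ 0) : Tend φ σ x (fun i => eval x (map σ (A i))) := by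
  intro ε hε
  set y : Fin (n + 1) → L := fun i => eval x (map σ (A i)) with hy
  set η : ℝ := min ε ‖y i0‖ with hη
  have hηpos : 0 < η := lt_min hε (norm_pos_iff.2 h0)
  set F : (Fin (n + 1) → L) → (Fin (n + 1) → L) := fun v i => eval v (map σ (A i)) with hF
  have hFc : Continuous F := continuous_pi fun i => MvPolynomial.continuous_eval _
  obtain ⟨δ, hδ, hδ'⟩ := Metric.continuousAt_iff.1 (hFc.continuousAt (x := x)) η hηpos
  refine ⟨δ, hδ, fun w ⟨c, hc, hn⟩ => ?_⟩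
  have h1 : dist (F (fun i => c * σ (vec w i))) (F x) < η := by
    apply hδ'
    rw [dist_pi_lt_iff hδ]
    intro i
    rw [dist_eq_norm]
    exact hn i
  rw [dist_pi_lt_iff hηpos] at h1
  obtain ⟨a, ha⟩ := hφ w
  have h2 : ∀ i, ‖c ^ e * σ a * σ (vec (φ w) i) - y i‖ < η := by
    intro i
    have h3 := h1 i
    rw [dist_eq_norm] at h3
    have e1 : F (fun i => c * σ (vec w i)) i = c ^ e * σ a * σ (vec (φ w) i) := by
      rw [hF]
      simp only
      rw [eval_map_smul σ (hA i), ha i, map_mul, mul_assoc]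
    rwa [e1] at h3
  have ha0 : σ a ≠ 0 := by
    intro h0'
    have h3 := h2 i0
    rw [h0', mul_zero, zero_mul, zero_sub, norm_neg] at h3
    exact absurd (h3.trans_le (min_le_right _ _)) (lt_irrefl _)
  exact ⟨c ^ e * σ a, mul_ne_zero (pow_ne_zero _ hc) ha0, fun i => (h2 i).trans_le (min_le_left _ _)⟩

/-- points in the closure of `X(K)` are points of `X` -/
lemma closure_zero (hI : Homog I) {x : Fin (n + 1) → L} (hcl : ∀ ε : ℝ, 0 < ε → ∃ w : RatPt I, Nr σ (vec w) x ε)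
    {g : Poly K n} (hg : g ∈ I) : eval x (map σ g) = 0 := by
  have h1 : ∀ t, eval x (map σ (homogeneousComponent t g)) = 0 := by
    intro t
    by_contra hne
    have hc : Continuous fun v : Fin (n + 1) → L => eval v (map σ (homogeneousComponent t g)) :=
      MvPolynomial.continuous_eval _
    obtain ⟨η, hη, hη'⟩ := Metric.continuousAt_iff.1 (hc.continuousAt (x := x))
      ‖eval x (map σ (homogeneousComponent t g))‖ (norm_pos_iff.2 hne)
    obtain ⟨w, c, hc, hn⟩ := hcl η hη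
    have h2 : dist (eval (fun i => c * σ (vec w i)) (map σ (homogeneousComponent t g)))
        (eval x (map σ (homogeneousComponent t g))) < ‖eval x (map σ (homogeneousComponent t g))‖ := by
      apply hη'
      rw [dist_pi_lt_iff hη]
      intro i
      rw [dist_eq_norm]
      exact hn i
    rw [eval_map_smul σ (homogeneousComponent_isHomogeneous t g), (vec_pt w).2 _ (hI g hg t), map_zero, mul_zero,
      dist_eq_norm, zero_sub, norm_neg] at h2
    exact lt_irrefl _ h2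
  rw [← sum_homogeneousComponent g, map_sum, map_sum]
  exact Finset.sum_eq_zero fun t _ => h1 t

lemma exists_form_ne (hI : Homog I) {x : Fin (n + 1) → L} (hx : x ≠ 0)
    (hcl : ∀ ε : ℝ, 0 < ε → ∃ w : RatPt I, Nr σ (vec w) x ε) {ι : Type} {A : ι → Poly K n} (hA : NoZero I A) :
    ∃ a, eval x (map σ (A a)) ≠ 0 := by
  by_contra hcon
  push Not at hcon
  apply hx
  funext l
  obtain ⟨M, hM⟩ := hA l
  have hle : I ⊔ Ideal.span (Set.range A) ≤ RingHom.ker ((eval x).comp (map σ)) := by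
    refine sup_le (fun g hg => closure_zero hI hcl hg) ?_
    rw [Ideal.span_le]
    rintro _ ⟨a, rfl⟩
    exact hcon a
  have h1 := hle hM
  rw [RingHom.mem_ker] at h1
  simp only [RingHom.comp_apply, map_pow, map_X, eval_X] at h1
  exact eq_zero_of_pow_eq_zero h1

lemma par_of_near {x z : Fin (n + 1) → L} (hx : x ≠ 0) (hz : z ≠ 0)
    (h : ∀ δ : ℝ, 0 < δ → ∃ w : RatPt I, Nr σ (vec w) x δ ∧ Nr σ (vec w) z δ) : Par x z := by
  refine MZ.par_of_minors hx hz fun l m => ?_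
  by_contra hne
  set B : ℝ := ‖x l‖ + ‖x m‖ + ‖z l‖ + ‖z m‖ + 2 with hB
  have hBpos : 0 < B := by positivity
  set D : ℝ := ‖x l * z m - x m * z l‖ with hD
  have hDpos : 0 < D := norm_pos_iff.2 (sub_ne_zero.2 fun h => hne h.symm)
  set δ : ℝ := min 1 (D / (2 * B)) with hδ
  have hδpos : 0 < δ := lt_min one_pos (by positivity)
  have hδ1 : δ ≤ 1 := min_le_left _ _
  obtain ⟨w, ⟨c, hc, hn⟩, c', hc', hn'⟩ := h δ hδpos
  have key : ∀ i j, ‖x i * z j - c * σ (vec w i) * (c' * σ (vec w j))‖ ≤ δ * (‖x i‖ + ‖z j‖ + 1) := by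
    intro i j
    have e1 : x i * z j - c * σ (vec w i) * (c' * σ (vec w j)) =
        -(x i * (c' * σ (vec w j) - z j)) - (c * σ (vec w i) - x i) * (c' * σ (vec w j)) := by ring
    have e2 : ‖c' * σ (vec w j)‖ ≤ ‖z j‖ + 1 := by
      have : c' * σ (vec w j) = z j + (c' * σ (vec w j) - z j) := by ring
      rw [this]
      exact (norm_add_le _ _).trans (by linarith [hn' j])
    rw [e1]
    refine (norm_sub_le _ _).trans ?_
    rw [norm_neg, norm_mul, norm_mul]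
    have e3 := mul_le_mul_of_nonneg_left (hn' j).le (norm_nonneg (x i))
    have e4 := mul_le_mul (hn i).le e2 (norm_nonneg _) hδpos.le
    nlinarith
  have h1 := key l m
  have h2 := key m l
  have h3 : D ≤ δ * (‖x l‖ + ‖z m‖ + 1) + δ * (‖x m‖ + ‖z l‖ + 1) := by
    have e5 : x l * z m - x m * z l = (x l * z m - c * σ (vec w l) * (c' * σ (vec w m))) -
        (x m * z l - c * σ (vec w m) * (c' * σ (vec w l))) := by ring
    rw [hD, e5]
    exact (norm_sub_le _ _).trans (add_le_add h1 h2)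
  have h4 : δ * B ≤ D / 2 := by
    have : δ ≤ D / (2 * B) := min_le_right _ _
    calc δ * B ≤ D / (2 * B) * B := mul_le_mul_of_nonneg_right this hBpos.le
      _ = D / 2 := by field_simp
  have h5 : δ * (‖x l‖ + ‖z m‖ + 1) + δ * (‖x m‖ + ‖z l‖ + 1) = δ * B := by rw [hB]; ring
  linarith

lemma nr_par {w : Fin (n + 1) → K} {x z : Fin (n + 1) → L} (h : Par x z) :
    ∃ κ : ℝ, 0 < κ ∧ ∀ ε, Nr σ w z (ε * κ) → Nr σ w x ε := by
  obtain ⟨c, hc, rfl⟩ := h
  have hc' : 0 < ‖c‖ := norm_pos_iff.2 hc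
  refine ⟨‖c‖, hc', fun ε ⟨d, hd, hn⟩ => ⟨d / c, div_ne_zero hd hc, fun i => ?_⟩⟩
  have h1 := hn i
  simp only [Pi.smul_apply, smul_eq_mul] at h1
  have h2 : d / c * σ (w i) - x i = (d * σ (w i) - c * x i) / c := by field_simp
  rw [h2, norm_div, div_lt_iff₀ hc']
  exact h1

/-- the image of a point in the closure of `X(K)` -/
lemma exists_image (hI : Homog I) {φ : Equiv.Perm (RatPt I)} (hφ : Regular I φ) (hφ' : Regular I φ.symm)
    {x : Fin (n + 1) → L} (hx : x ≠ 0) (hcl : ∀ ε : ℝ, 0 < ε → ∃ w : RatPt I, Nr σ (vec w) x ε) :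
    ∃ y : Fin (n + 1) → L, y ≠ 0 ∧ Tend φ σ x y ∧ Tend φ.symm σ y x := by
  obtain ⟨k, e, A, hA1, hA2, hA3⟩ := hφ
  obtain ⟨⟨α, i0⟩, h0⟩ := exists_form_ne hI hx hcl hA2
  have hT : Tend φ σ x (fun i => eval x (map σ (A α i))) :=
    tend_of_form (hA1 α) (fun p => hA3 p α) x (i0 := i0) h0
  set y : Fin (n + 1) → L := fun i => eval x (map σ (A α i)) with hy
  have hy0 : y ≠ 0 := fun h => h0 (congrFun h i0)
  have hcly : ∀ ε : ℝ, 0 < ε → ∃ w : RatPt I, Nr σ (vec w) y ε := by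
    intro ε hε
    obtain ⟨δ, hδ, h⟩ := hT ε hε
    obtain ⟨w, hw⟩ := hcl δ hδ
    exact ⟨φ w, h w hw⟩
  obtain ⟨k', e', B, hB1, hB2, hB3⟩ := hφ'
  obtain ⟨⟨β, j0⟩, h0'⟩ := exists_form_ne hI hy0 hcly hB2
  have hT' : Tend φ.symm σ y (fun i => eval y (map σ (B β i))) :=
    tend_of_form (hB1 β) (fun p => hB3 p β) y (i0 := j0) h0'
  set z : Fin (n + 1) → L := fun i => eval y (map σ (B β i)) with hz
  have hz0 : z ≠ 0 := fun h => h0' (congrFun h j0)
  refine ⟨y, hy0, hT, ?_⟩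
  have hpar : Par x z := by
    refine par_of_near (I := I) (σ := σ) hx hz0 fun δ hδ => ?_
    obtain ⟨δ1, hδ1, h1⟩ := hT' δ hδ
    obtain ⟨δ2, hδ2, h2⟩ := hT δ1 hδ1
    obtain ⟨w, hw⟩ := hcl (min δ δ2) (lt_min hδ hδ2)
    refine ⟨w, nr_mono hw (min_le_left _ _), ?_⟩
    have := h1 _ (h2 w (nr_mono hw (min_le_right _ _)))
    rwa [Equiv.symm_apply_apply] at this
  intro ε hε
  obtain ⟨c, hc, hxz⟩ := hpar
  have hc' : 0 < ‖c‖ := norm_pos_iff.2 hc
  obtain ⟨δ, hδ, h⟩ := hT' (ε * ‖c‖) (by positivity)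
  refine ⟨δ, hδ, fun w hw => ?_⟩
  obtain ⟨d, hd, hn⟩ := h w hw
  refine ⟨d / c, div_ne_zero hd hc, fun i => ?_⟩
  have h1 := hn i
  rw [hxz] at h1
  simp only [Pi.smul_apply, smul_eq_mul] at h1
  have h2 : d / c * σ (vec (φ.symm w) i) - x i = (d * σ (vec (φ.symm w) i) - c * x i) / c := by field_simp
  rw [h2, norm_div, div_lt_iff₀ hc']
  exact h1

/-- transport of the local closures -/
lemma on_loc_tend [Infinite K] (hI : Homog I) {φ : RatPt I → RatPt I} (hφ : RegK I φ) {x y : Fin (n + 1) → L}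
    (hT : Tend φ σ x y) (q : RatPt I) (h : On (localIdeal I σ x) q) : On (localIdeal I σ y) (φ q) := by
  obtain ⟨ε, hε, hv⟩ := loc_unif hI σ y
  obtain ⟨δ, hδ, hnear⟩ := hT ε hε
  have hW : ZClosed I (φ ⁻¹' {p : RatPt I | On (localIdeal I σ y) p}) :=
    ZCR.t K n I φ hφ _ (zclosed_on (homog_loc hI σ _))
  exact loc_min hI σ _ hW hδ (fun w hw g hg => hv _ (hnear w hw) g hg) q h

/-- The automorphism `γ` maps the variety of `J` (its `K`-points) to itself. -/
def Stab (γ : Equiv.Perm (RatPt I)) (J : Ideal (Poly K n)) : Prop := ∀ p, On J (γ p) ↔ On J p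

/-- local closures are stable under automorphisms which move the point only a little -/
theorem rigid [Infinite K] (hI : Homog I) (σ : K →+* L) (x : Fin (n + 1) → L) :
    ∃ ε : ℝ, 0 < ε ∧ ∀ γ : Equiv.Perm (RatPt I), IsAut I γ →
      (∃ δ : ℝ, 0 < δ ∧ ∀ w : RatPt I, Nr σ (vec w) x δ → Nr σ (vec (γ w)) x ε) → Stab γ (localIdeal I σ x) := by
  obtain ⟨ε, hε, hv⟩ := loc_unif hI σ x
  refine ⟨ε, hε, fun γ hγ ⟨δ, hδ, h⟩ => ?_⟩
  have hJ : Homog (localIdeal I σ x) := homog_loc hI σ x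
  have hW : ZClosed I (γ ⁻¹' {p : RatPt I | On (localIdeal I σ x) p}) :=
    ZCR.t K n I γ hγ.1.regK _ (zclosed_on hJ)
  have hsub := loc_min hI σ x hW hδ (fun w hw g hg => hv _ (h w hw) g hg)
  exact stab_of_sub (ZCR.t K n I γ.symm hγ.2.regK) (zclosed_on hJ) hsub

/-- `φ` has images at the points in the closure of `X(K)`, with inverse -/
def HasIm (σ : K →+* L) (φ : Equiv.Perm (RatPt I)) : Prop :=
  ∀ x : Fin (n + 1) → L, x ≠ 0 → (∀ ε : ℝ, 0 < ε → ∃ w : RatPt I, Nr σ (vec w) x ε) →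
    ∃ y : Fin (n + 1) → L, y ≠ 0 ∧ Tend φ σ x y ∧ Tend φ.symm σ y x

lemma HasIm.mul {φ ψ : Equiv.Perm (RatPt I)} (hφ : HasIm σ φ) (hψ : HasIm σ ψ) : HasIm σ (φ * ψ) := by
  intro x hx hcl
  obtain ⟨y, hy, h1, h2⟩ := hψ x hx hcl
  have hcly : ∀ ε : ℝ, 0 < ε → ∃ w : RatPt I, Nr σ (vec w) y ε := by
    intro ε hε
    obtain ⟨δ, hδ, h⟩ := h1 ε hε
    obtain ⟨w, hw⟩ := hcl δ hδ
    exact ⟨ψ w, h w hw⟩
  obtain ⟨z, hz, h3, h4⟩ := hφ y hy hcly
  refine ⟨z, hz, ?_, ?_⟩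
  · intro ε hε
    obtain ⟨δ, hδ, h⟩ := h3 ε hε
    obtain ⟨δ', hδ', h'⟩ := h1 δ hδ
    exact ⟨δ', hδ', fun w hw => h _ (h' w hw)⟩
  · intro ε hε
    obtain ⟨δ, hδ, h⟩ := h2 ε hε
    obtain ⟨δ', hδ', h'⟩ := h4 δ hδ
    exact ⟨δ', hδ', fun w hw => h _ (h' w hw)⟩

lemma hasIm_closure (hI : Homog I) {S : Set (Equiv.Perm (RatPt I))} (hS : ∀ g ∈ S, IsAut I g)
    {γ : Equiv.Perm (RatPt I)} (hγ : γ ∈ Subgroup.closure S) : HasIm σ γ ∧ HasIm σ γ⁻¹ := by
  induction hγ using Subgroup.closure_induction with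
  | mem g hg =>
    exact ⟨fun x hx hcl => exists_image hI (hS g hg).1 (hS g hg).2 hx hcl,
      fun x hx hcl => exists_image hI (φ := g.symm) (hS g hg).2 (by rw [Equiv.symm_symm]; exact (hS g hg).1) hx hcl⟩
  | one =>
    have : HasIm (I := I) σ (1 : Equiv.Perm (RatPt I)) := fun x hx _ =>
      ⟨x, hx, fun ε hε => ⟨ε, hε, fun w hw => hw⟩, fun ε hε => ⟨ε, hε, fun w hw => hw⟩⟩
    exact ⟨this, by rw [inv_one]; exact this⟩
  | mul a b _ _ ha hb => exact ⟨ha.1.mul hb.1, by rw [mul_inv_rev]; exact hb.2.mul ha.2⟩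
  | inv a _ ha => exact ⟨ha.2, by rw [inv_inv]; exact ha.1⟩

/-- if there are only finitely many local closures then all are periodic -/
theorem finMany_periodic [Infinite K] (hI : Homog I) (σ : K →+* L)
    (hF : {J : Ideal (Poly K n) | ∃ x : Fin (n + 1) → L, x ≠ 0 ∧ J = localIdeal I σ x}.Finite)
    (S : Set (Equiv.Perm (RatPt I))) (hS : ∀ γ ∈ S, IsAut I γ) (x : Fin (n + 1) → L) (hx : x ≠ 0) :
    Periodic (Subgroup.closure S) (localIdeal I σ x) := by
  classical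
  set Γ0 := Subgroup.closure S with hΓ0
  have hreg : ∀ γ ∈ Γ0, RegK I γ ∧ RegK I γ.symm := fun γ hγ =>
    closure_reg REGC.t (fun g hg => ⟨(hS g hg).1.regK, (hS g hg).2.regK⟩) hγ
  by_cases hcl : ∀ ε : ℝ, 0 < ε → ∃ w : RatPt I, Nr σ (vec w) x ε
  · have hex : ∀ γ : Γ0, ∃ y : Fin (n + 1) → L, y ≠ 0 ∧ Tend γ.1 σ x y ∧ Tend γ.1.symm σ y x := fun γ =>
      (hasIm_closure (σ := σ) hI hS γ.2).1 x hx hcl
    choose y hy0 hy1 hy2 using hex
    have hiff : ∀ (γ : Γ0) (q : RatPt I), On (localIdeal I σ (y γ)) (γ.1 q) ↔ On (localIdeal I σ x) q := by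
      intro γ q
      refine ⟨fun h => ?_, on_loc_tend hI (hreg γ γ.2).1 (hy1 γ) q⟩
      have := on_loc_tend hI (hreg γ γ.2).2 (hy2 γ) _ h
      rwa [Equiv.symm_apply_apply] at this
    let Γ : Subgroup (Equiv.Perm (RatPt I)) :=
      { carrier := {γ | γ ∈ Γ0 ∧ Stab γ (localIdeal I σ x)}
        one_mem' := ⟨one_mem _, fun p => Iff.rfl⟩
        mul_mem' := by
          rintro a b ⟨ha, ha'⟩ ⟨hb, hb'⟩
          exact ⟨mul_mem ha hb, fun p => by rw [Equiv.Perm.mul_apply, ha', hb']⟩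
        inv_mem' := by
          rintro a ⟨ha, ha'⟩
          refine ⟨inv_mem ha, fun p => ?_⟩
          rw [← ha' (a⁻¹ p)]
          rw [show a (a⁻¹ p) = p from a.apply_symm_apply p] }
    refine ⟨Γ, fun γ hγ => hγ.1, ?_, fun γ hγ => hγ.2⟩
    set H : Subgroup Γ0 := Γ.subgroupOf Γ0 with hH
    have hfr : (Set.range fun γ : Γ0 => localIdeal I σ (y γ)).Finite := by
      refine hF.subset ?_
      rintro _ ⟨γ, rfl⟩
      exact ⟨y γ, hy0 γ, rfl⟩
    have := hfr.to_subtype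
    have hfin : Finite (Γ0 ⧸ H) := by
      refine Finite.of_injective
        (fun c : Γ0 ⧸ H => (⟨localIdeal I σ (y c.out), c.out, rfl⟩ : Set.range fun γ : Γ0 => localIdeal I σ (y γ))) ?_
      intro c c' h
      have h1 : localIdeal I σ (y c.out) = localIdeal I σ (y c'.out) := congrArg Subtype.val h
      rw [← QuotientGroup.out_eq' c, ← QuotientGroup.out_eq' c']
      rw [QuotientGroup.eq]
      rw [Subgroup.mem_subgroupOf]
      refine ⟨((c.out : Γ0)⁻¹ * (c'.out : Γ0) : Γ0).2, fun p => ?_⟩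
      have h2 : (((c.out : Γ0)⁻¹ * (c'.out : Γ0) : Γ0) : Equiv.Perm (RatPt I)) p =
        (c.out : Γ0).1.symm ((c'.out : Γ0).1 p) := rfl
      rw [h2, ← hiff c.out, Equiv.apply_symm_apply, h1, hiff c'.out]
    have := Subgroup.finiteIndex_of_finite_quotient (H := H)
    exact this.index_ne_zero
  · push Not at hcl
    obtain ⟨ε, hε, h⟩ := hcl
    have htop : (1 : Poly K n) ∈ localIdeal I σ x := by
      rw [mem_loc hI]
      exact ⟨ε, hε, fun w hw => absurd hw (h w)⟩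
    have hno : ∀ p : RatPt I, ¬ On (localIdeal I σ x) p := fun p hp => by
      have := hp 1 htop
      simp at this
    exact ⟨Γ0, le_rfl, by rw [Subgroup.relIndex_self]; exact one_ne_zero,
      fun γ _ p => ⟨fun h => absurd h (hno _), fun h => absurd h (hno _)⟩⟩

end T

end Pool.Agent.H55.MX
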